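import Mathlib

set_option autoImplicit false

namespace Pool.Agent.H46

open Filter Topology NumberField NumberField.InfinitePlace NumberField.Units
  NumberField.Units.dirichletUnitTheorem Module

variable (K : Type*) [Field K] [NumberField K]

open scoped Classical in
/-- The unit lattice is cobounded. -/
theorem unitLattice_near : ∃ C : ℝ, 0 ≤ C ∧ ∀ y : logSpace K, ∃ u : (𝓞 K)ˣ,
    ‖logEmbedding K (Additive.ofMul u) - y‖ ≤ C := by
  classical
  let b : Basis (Fin (rank K)) ℝ (logSpace K) := (basisUnitLattice K).ofZLatticeBasis ℝ (unitLattice K)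
  refine ⟨∑ i, ‖b i‖, Finset.sum_nonneg fun i _ => norm_nonneg _, fun y => ?_⟩
  have h1 : (ZSpan.floor b y : logSpace K) ∈ unitLattice K := by
    have h2 := (ZSpan.floor b y).2
    have h3 : Submodule.span ℤ (Set.range b) = unitLattice K :=
      (basisUnitLattice K).ofZLatticeBasis_span ℝ
    exact h3.le h2
  obtain ⟨u, -, hu⟩ := h1
  refine ⟨u.toMul, ?_⟩
  have hu' : logEmbedding K (Additive.ofMul u.toMul) = (ZSpan.floor b y : logSpace K) := hu
  have h4 := ZSpan.norm_fract_le (K := ℝ) b y
  rw [ZSpan.fract_apply] at h4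
  rw [hu', norm_sub_rev]
  exact h4

/-- Sums over complex embeddings as weighted sums over infinite places. -/
theorem sum_embeddings (f : InfinitePlace K → ℝ) :
    ∑ φ : K →+* ℂ, f (mk φ) = ∑ v : InfinitePlace K, mult v * f v := by
  classical
  rw [← Finset.univ.sum_fiberwise (fun φ : K →+* ℂ => InfinitePlace.mk φ)]
  apply Finset.sum_congr rfl
  intro v _
  have h : ∀ φ ∈ Finset.univ.filter (fun φ : K →+* ℂ => mk φ = v), f (mk φ) = f v := by
    intro φ hφ
    rw [(Finset.mem_filter.mp hφ).2]
  rw [Finset.sum_congr rfl h, Finset.sum_const, card_filter_mk_eq, nsmul_eq_mul]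

/-- There are units whose absolute values follow any given direction of sum zero up to a bounded
factor. -/
theorem units_near (w : (K →+* ℂ) → ℝ)
    (hconj : ∀ φ, w (ComplexEmbedding.conjugate φ) = w φ) (hsum : ∑ φ, w φ = 0) :
    ∃ C : ℝ, ∀ s : ℝ, ∃ u : (𝓞 K)ˣ, ∀ φ : K →+* ℂ,
      |Real.log ‖φ ((u : 𝓞 K) : K)‖ - s * w φ| ≤ C := by
  classical
  obtain ⟨C, hC, hnear⟩ := unitLattice_near K
  let wp : InfinitePlace K → ℝ := fun v => w v.embedding
  have hwp : ∀ φ : K →+* ℂ, w φ = wp (mk φ) := by
    intro φ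
    rcases (mk_eq_iff (φ := (mk φ).embedding) (ψ := φ)).mp (mk_embedding (mk φ)) with h | h
    · change w φ = w (mk φ).embedding
      rw [h]
    · change w φ = w (mk φ).embedding
      rw [← hconj (mk φ).embedding, h]
  have hsum' : ∑ v : InfinitePlace K, mult v * wp v = 0 := by
    rw [← sum_embeddings, ← hsum]
    exact Finset.sum_congr rfl fun φ _ => (hwp φ).symm
  refine ⟨C + Fintype.card (InfinitePlace K) * C, fun s => ?_⟩
  obtain ⟨u, hu⟩ := hnear (fun v => mult v.1 * (s * wp v.1))
  refine ⟨u, fun φ => ?_⟩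
  have hcoord : ∀ v : InfinitePlace K, v ≠ w₀ →
      |mult v * Real.log (v ((u : 𝓞 K) : K)) - mult v * (s * wp v)| ≤ C := by
    intro v hv
    have h1 := (norm_le_pi_norm (logEmbedding K (Additive.ofMul u)
      - fun v : {v : InfinitePlace K // v ≠ w₀} => (mult v.1 : ℝ) * (s * wp v.1)) ⟨v, hv⟩).trans hu
    rwa [Pi.sub_apply, logEmbedding_component, Real.norm_eq_abs] at h1
  have hmult : ∀ v : InfinitePlace K, (1 : ℝ) ≤ mult v := by
    intro v
    exact_mod_cast (Nat.one_le_iff_ne_zero.mpr (mult_ne_zero (w := v)))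
  have hall : ∀ v : InfinitePlace K,
      |mult v * Real.log (v ((u : 𝓞 K) : K)) - mult v * (s * wp v)|
        ≤ C + Fintype.card (InfinitePlace K) * C := by
    intro v
    by_cases hv : v = w₀
    · subst hv
      have e1 := sum_mult_mul_log u
      have e2 : ∑ v : InfinitePlace K, mult v * (s * wp v) = 0 := by
        have : ∑ v : InfinitePlace K, mult v * (s * wp v) = s * ∑ v : InfinitePlace K, mult v * wp v := by
          rw [Finset.mul_sum]
          exact Finset.sum_congr rfl fun v _ => by ring
        rw [this, hsum', mul_zero]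
      have e3 : ∑ v : InfinitePlace K,
          (mult v * Real.log (v ((u : 𝓞 K) : K)) - mult v * (s * wp v)) = 0 := by
        rw [Finset.sum_sub_distrib, e1, e2, sub_zero]
      rw [← Finset.add_sum_erase _ _ (Finset.mem_univ (w₀ : InfinitePlace K))] at e3
      have e4 : mult (w₀ : InfinitePlace K) * Real.log ((w₀ : InfinitePlace K) ((u : 𝓞 K) : K))
          - mult (w₀ : InfinitePlace K) * (s * wp w₀)
          = -∑ v ∈ Finset.univ.erase (w₀ : InfinitePlace K),
            (mult v * Real.log (v ((u : 𝓞 K) : K)) - mult v * (s * wp v)) := by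
        linarith
      rw [e4, abs_neg]
      calc |∑ v ∈ Finset.univ.erase (w₀ : InfinitePlace K),
            (mult v * Real.log (v ((u : 𝓞 K) : K)) - mult v * (s * wp v))|
          ≤ ∑ v ∈ Finset.univ.erase (w₀ : InfinitePlace K),
            |mult v * Real.log (v ((u : 𝓞 K) : K)) - mult v * (s * wp v)| :=
            Finset.abs_sum_le_sum_abs _ _
        _ ≤ ∑ v ∈ Finset.univ.erase (w₀ : InfinitePlace K), C :=
            Finset.sum_le_sum fun v hv => hcoord v (Finset.ne_of_mem_erase hv)
        _ = ((Finset.univ.erase (w₀ : InfinitePlace K)).card : ℝ) * C := by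
            rw [Finset.sum_const, nsmul_eq_mul]
        _ ≤ Fintype.card (InfinitePlace K) * C := by
            apply mul_le_mul_of_nonneg_right _ hC
            have := Finset.card_le_univ (Finset.univ.erase (w₀ : InfinitePlace K))
            exact_mod_cast this
        _ ≤ C + Fintype.card (InfinitePlace K) * C := by linarith
    · refine (hcoord v hv).trans ?_
      have : 0 ≤ (Fintype.card (InfinitePlace K) : ℝ) * C := by positivity
      linarith
  have h1 := hall (mk φ)
  rw [← mul_sub, abs_mul, Nat.abs_cast] at h1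
  rw [hwp φ]
  have h2 : (mk φ) ((u : 𝓞 K) : K) = ‖φ ((u : 𝓞 K) : K)‖ := by
    rw [InfinitePlace.apply]
  rw [h2] at h1
  have h3 := hmult (mk φ)
  have h4 := abs_nonneg (Real.log ‖φ ((u : 𝓞 K) : K)‖ - s * wp (mk φ))
  nlinarith

end Pool.Agent.H46
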