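import Mathlib

set_option autoImplicit false

namespace Pool.Agent.H46

open MvPolynomial Matrix

/-- If every row of `g` is an eigenvector of an integer matrix, with distinct eigenvalues, then the
product of the linear forms is proportional to an integral form. -/
theorem integral_of_eigen (d : ℕ) (g : Matrix (Fin d) (Fin d) ℝ) (hg : g.det ≠ 0)
    (T : Matrix (Fin d) (Fin d) ℤ) (lam : Fin d → ℝ) (hlam : Function.Injective lam)
    (heig : ∀ i, vecMul (g i) (T.map (Int.cast : ℤ → ℝ)) = lam i • g i) :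
    ∃ c : ℝ, c ≠ 0 ∧ ∀ m : Fin d →₀ ℕ, ∃ z : ℤ,
      coeff m (c • (∏ i : Fin d, ∑ j : Fin d, C (g i j) * X j : MvPolynomial (Fin d) ℝ))
        = (z : ℝ) := by
  classical
  set TR : Matrix (Fin d) (Fin d) ℝ := T.map (Int.cast : ℤ → ℝ) with hTR
  have hpow : ∀ (n : ℕ) (i : Fin d), vecMul (g i) (TR ^ n) = (lam i) ^ n • g i := by
    intro n i
    induction n with
    | zero => simp
    | succ n ih =>
      rw [pow_succ, ← vecMul_vecMul, ih, smul_vecMul, heig, smul_smul, pow_succ]
  have hTpow : ∀ n : ℕ, (T ^ n).map (Int.cast : ℤ → ℝ) = TR ^ n := by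
    intro n
    have h1 : ∀ A : Matrix (Fin d) (Fin d) ℤ, A.map (Int.cast : ℤ → ℝ)
        = (Int.castRingHom ℝ).mapMatrix A := fun A => rfl
    rw [hTR, h1, h1, map_pow]
  let MZ : Matrix (Fin d) (Fin d) (MvPolynomial (Fin d) ℤ) :=
    Matrix.of fun k j => ∑ l, C ((T ^ (j : ℕ)) k l) * X l
  let MR : Matrix (Fin d) (Fin d) (MvPolynomial (Fin d) ℝ) :=
    Matrix.of fun k j => ∑ l, C ((TR ^ (j : ℕ)) k l) * X l
  have hmap : MvPolynomial.map (Int.castRingHom ℝ) MZ.det = MR.det := by
    rw [RingHom.map_det]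
    congr 1
    ext1 k j
    simp only [MZ, MR, RingHom.mapMatrix_apply, Matrix.map_apply, Matrix.of_apply, map_sum, map_mul,
      map_C, map_X, ← hTpow]
    rfl
  let L : Fin d → MvPolynomial (Fin d) ℝ := fun i => ∑ j, C (g i j) * X j
  have hprod : (g.map (C : ℝ →+* MvPolynomial (Fin d) ℝ)) * MR
      = Matrix.diagonal L * ((Matrix.vandermonde lam).map (C : ℝ →+* MvPolynomial (Fin d) ℝ)) := by
    ext1 i j
    rw [Matrix.mul_apply, Matrix.diagonal_mul]
    simp only [Matrix.map_apply, MR, Matrix.of_apply, Matrix.vandermonde_apply]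
    have h1 : ∀ l, ∑ k, g i k * (TR ^ (j : ℕ)) k l = lam i ^ (j : ℕ) * g i l := by
      intro l
      have := congr_fun (hpow j i) l
      simpa [vecMul, dotProduct] using this
    calc ∑ k, C (g i k) * ∑ l, C ((TR ^ (j : ℕ)) k l) * X l
        = ∑ l, C (∑ k, g i k * (TR ^ (j : ℕ)) k l) * X l := by
          simp only [Finset.mul_sum, map_sum, Finset.sum_mul, map_mul]
          rw [Finset.sum_comm]
          apply Finset.sum_congr rfl
          intro l _
          apply Finset.sum_congr rfl
          intro k _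
          ring
      _ = L i * C (lam i ^ (j : ℕ)) := by
          simp only [h1, L, Finset.sum_mul, map_mul]
          apply Finset.sum_congr rfl
          intro l _
          ring
  have hdet : C (g.det) * MR.det = (∏ i, L i) * C ((Matrix.vandermonde lam).det) := by
    have h1 := congr_arg Matrix.det hprod
    rw [Matrix.det_mul, Matrix.det_mul, Matrix.det_diagonal] at h1
    rw [← RingHom.mapMatrix_apply, ← RingHom.mapMatrix_apply, ← RingHom.map_det,
      ← RingHom.map_det] at h1
    exact h1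
  have hV : (Matrix.vandermonde lam).det ≠ 0 := Matrix.det_vandermonde_ne_zero_iff.mpr hlam
  refine ⟨(Matrix.vandermonde lam).det / g.det, div_ne_zero hV hg, fun m => ?_⟩
  have hkey : ((Matrix.vandermonde lam).det / g.det) • (∏ i, L i)
      = MvPolynomial.map (Int.castRingHom ℝ) MZ.det := by
    rw [hmap]
    have h2 : C (g.det) * (((Matrix.vandermonde lam).det / g.det) • (∏ i, L i))
        = C (g.det) * MR.det := by
      rw [hdet, smul_eq_C_mul, ← mul_assoc, ← map_mul, mul_div_cancel₀ _ hg, mul_comm]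
    have h3 : (C (g.det) : MvPolynomial (Fin d) ℝ) ≠ 0 := by
      rw [Ne, C_eq_zero]
      exact hg
    exact mul_left_cancel₀ h3 h2
  refine ⟨coeff m MZ.det, ?_⟩
  have h4 : (∏ i : Fin d, ∑ j : Fin d, C (g i j) * X j : MvPolynomial (Fin d) ℝ) = ∏ i, L i := rfl
  rw [h4, hkey, coeff_map]
  rfl

end Pool.Agent.H46
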