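import Mathlib

set_option autoImplicit false

namespace Pool.Agent.H46

open Finset Filter Topology

/-- The bead masses: heavy beads `1 / (j + 1)` at the places `2 ^ j`, light beads `16⁻ᵏ` elsewhere. -/
noncomputable def mass (k : ℕ) : ℝ :=
  if 2 ^ Nat.log 2 k = k then 1 / ((Nat.log 2 k : ℝ) + 1) else (1 / 16) ^ k

theorem mass_pos (k : ℕ) : 0 < mass k := by
  unfold mass
  split_ifs <;> positivity

theorem mass_pow (j : ℕ) : mass (2 ^ j) = 1 / ((j : ℝ) + 1) := by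
  unfold mass
  rw [Nat.log_pow (by norm_num)]
  simp

theorem mass_light (k : ℕ) (h : 2 ^ Nat.log 2 k ≠ k) : mass k = (1 / 16) ^ k := by
  unfold mass
  rw [if_neg h]

theorem log_tendsto : Tendsto (fun k : ℕ => Nat.log 2 k) atTop atTop := by
  apply Filter.tendsto_atTop_atTop.2
  intro b
  refine ⟨2 ^ b, fun a ha => ?_⟩
  exact Nat.le_log_of_pow_le (by norm_num) ha

theorem mass_tendsto : Tendsto mass atTop (𝓝 0) := by
  have h1 : Tendsto (fun k : ℕ => 1 / ((Nat.log 2 k : ℝ) + 1)) atTop (𝓝 0) :=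
    (tendsto_one_div_add_atTop_nhds_zero_nat (𝕜 := ℝ)).comp log_tendsto
  have h2 : Tendsto (fun k : ℕ => (1 / 16 : ℝ) ^ k) atTop (𝓝 0) :=
    tendsto_pow_atTop_nhds_zero_of_lt_one (by norm_num) (by norm_num)
  have h3 := h1.add h2
  rw [add_zero] at h3
  refine squeeze_zero (fun k => (mass_pos k).le) (fun k => ?_) h3
  unfold mass
  split_ifs
  · have : (0 : ℝ) ≤ (1 / 16) ^ k := by positivity
    linarith
  · have : (0 : ℝ) ≤ 1 / ((Nat.log 2 k : ℝ) + 1) := by positivity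
    linarith

theorem mass_not_summable : ¬ Summable mass := by
  intro h
  have hinj : Function.Injective (fun j : ℕ => 2 ^ j) := Nat.pow_right_injective (le_refl 2)
  have h1 := h.comp_injective hinj
  have h2 : (mass ∘ fun j : ℕ => 2 ^ j) = fun j : ℕ => 1 / (((j + 1 : ℕ) : ℝ)) := by
    funext j
    simp only [Function.comp_apply, mass_pow]
    push_cast
    rfl
  rw [h2] at h1
  exact Real.not_summable_one_div_natCast ((summable_nat_add_iff 1).mp h1)

/-- Square roots of the masses. -/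
noncomputable def sm (k : ℕ) : ℝ := Real.sqrt (mass k)

theorem sm_pos (k : ℕ) : 0 < sm k := Real.sqrt_pos.mpr (mass_pos k)

theorem sm_sq (k : ℕ) : sm k ^ 2 = mass k := Real.sq_sqrt (mass_pos k).le

/-- Off-diagonal entries. -/
noncomputable def ja (k : ℕ) : ℝ := 1 / (2 * sm k * sm (k + 1))

/-- Diagonal entries. -/
noncomputable def jb (k : ℕ) : ℝ := 1 / mass k

theorem ja_pos (k : ℕ) : 0 < ja k := by
  have h1 := sm_pos k
  have h2 := sm_pos (k + 1)
  unfold ja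
  positivity

theorem jb_tendsto : Tendsto jb atTop atTop := by
  have h : Tendsto mass atTop (𝓝[>] 0) :=
    tendsto_nhdsWithin_iff.mpr ⟨mass_tendsto, Eventually.of_forall mass_pos⟩
  have h2 := h.inv_tendsto_nhdsGT_zero
  refine h2.congr fun k => ?_
  simp [jb]

theorem ratio_eq (k : ℕ) : ja k ^ 2 / (jb k * jb (k + 1)) = 1 / 4 := by
  have h1 := sm_pos k
  have h2 := sm_pos (k + 1)
  unfold ja jb
  rw [← sm_sq k, ← sm_sq (k + 1)]
  field_simp
  norm_num

/-- The real difference expression `C x - t x`. -/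
noncomputable def jop (t : ℝ) (x : ℕ → ℝ) (k : ℕ) : ℝ :=
  (if k = 0 then 0 else ja (k - 1) * x (k - 1)) + jb k * x k + ja k * x (k + 1) - t * x k

/-- Half the negative second difference with a Dirichlet condition at `-1`. -/
noncomputable def lap (w : ℕ → ℝ) (k : ℕ) : ℝ :=
  w k - ((if k = 0 then 0 else w (k - 1)) + w (k + 1)) / 2

/-- The sequence `(-1)ᵏ √(m k) w k`. -/
noncomputable def twist (w : ℕ → ℝ) (k : ℕ) : ℝ := (-1) ^ k * sm k * w k

theorem jop_twist (t : ℝ) (w : ℕ → ℝ) (k : ℕ) :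
    jop t (twist w) k = (-1) ^ k * (lap w k / sm k - t * (sm k * w k)) := by
  have h1 := (sm_pos k).ne'
  have h2 := (sm_pos (k + 1)).ne'
  rcases Nat.eq_zero_or_pos k with hk | hk
  · subst hk
    simp only [jop, lap, twist, if_true]
    unfold ja jb
    rw [← sm_sq 0]
    field_simp
    ring
  · obtain ⟨n, rfl⟩ : ∃ n, k = n + 1 := ⟨k - 1, by omega⟩
    have h3 := (sm_pos n).ne'
    simp only [jop, lap, twist, Nat.add_eq_zero_iff, one_ne_zero, and_false, if_false,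
      Nat.add_sub_cancel]
    unfold ja jb
    rw [← sm_sq (n + 1)]
    field_simp
    ring

theorem twist_surj (x : ℕ → ℝ) : ∃ w : ℕ → ℝ, x = twist w ∧ ∀ k, x k = 0 → w k = 0 := by
  refine ⟨fun k => (-1) ^ k * x k / sm k, ?_, ?_⟩
  · funext k
    have h1 := (sm_pos k).ne'
    have h2 : ((-1 : ℝ) ^ k) * (-1) ^ k = 1 := by
      rw [← mul_pow]; simp
    simp only [twist]
    calc x k = ((-1 : ℝ) ^ k * (-1) ^ k) * x k := by rw [h2, one_mul]
      _ = (-1) ^ k * sm k * ((-1) ^ k * x k / sm k) := by field_simp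
  · intro k hk
    simp [hk]

/-- Summation by parts. -/
theorem sum_lap_mul (w v : ℕ → ℝ) (n : ℕ) :
    ∑ k ∈ range (n + 1), lap w k * v k
      = (w 0 * v 0 + ∑ k ∈ range n, (w (k + 1) - w k) * (v (k + 1) - v k)) / 2
        + (w n - w (n + 1)) * v n / 2 := by
  induction n with
  | zero =>
    simp [lap]
    ring
  | succ n ih =>
    rw [sum_range_succ, ih, sum_range_succ (n := n)]
    have h : lap w (n + 1) = w (n + 1) - (w n + w (n + 2)) / 2 := by
      simp [lap]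
    rw [h]
    ring

theorem sum_lap_mul' (w v : ℕ → ℝ) (n : ℕ) (hv : v n = 0) :
    ∑ k ∈ range (n + 1), lap w k * v k
      = (w 0 * v 0 + ∑ k ∈ range n, (w (k + 1) - w k) * (v (k + 1) - v k)) / 2 := by
  rw [sum_lap_mul, hv]
  ring

theorem neg_one_pow_mul_self (k : ℕ) : ((-1 : ℝ) ^ k) * (-1) ^ k = 1 := by
  rw [← mul_pow]; simp

/-- The Jacobi matrix is nonnegative, in the form of a lower bound for `C - t`, `t ≤ 0`. -/
theorem real_lower_neg (x : ℕ → ℝ) (N : ℕ) (hx : ∀ k, N ≤ k → x k = 0) (t : ℝ) (ht : t ≤ 0) :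
    t ^ 2 * ∑ k ∈ range (N + 1), x k ^ 2 ≤ ∑ k ∈ range (N + 1), jop t x k ^ 2 := by
  obtain ⟨w, rfl, hw⟩ := twist_surj x
  have hwN : w N = 0 := hw N (hx N le_rfl)
  have h1 : ∀ k, jop t (twist w) k ^ 2
      = (lap w k / sm k) ^ 2 - 2 * t * (lap w k * w k) + t ^ 2 * (twist w k) ^ 2 := by
    intro k
    have hs := (sm_pos k).ne'
    rw [jop_twist]
    unfold twist
    have h2 := neg_one_pow_mul_self k
    have h3 : ((-1 : ℝ) ^ k * (lap w k / sm k - t * (sm k * w k))) ^ 2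
      = ((-1 : ℝ) ^ k * (-1) ^ k) * (lap w k / sm k - t * (sm k * w k)) ^ 2 := by ring
    have h4 : ((-1 : ℝ) ^ k * sm k * w k) ^ 2
      = ((-1 : ℝ) ^ k * (-1) ^ k) * (sm k * w k) ^ 2 := by ring
    rw [h3, h4, h2]
    field_simp
    ring
  simp only [h1]
  rw [sum_add_distrib, sum_sub_distrib, ← mul_sum, ← mul_sum]
  have h5 := sum_lap_mul' w w N hwN
  have h6 : 0 ≤ ∑ k ∈ range (N + 1), lap w k * w k := by
    rw [h5]
    have : 0 ≤ ∑ k ∈ range N, (w (k + 1) - w k) * (w (k + 1) - w k) :=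
      sum_nonneg fun k _ => mul_self_nonneg _
    have h7 : 0 ≤ w 0 * w 0 := mul_self_nonneg _
    linarith
  have h8 : 0 ≤ ∑ k ∈ range (N + 1), (lap w k / sm k) ^ 2 := sum_nonneg fun k _ => sq_nonneg _
  nlinarith

/-- Piecewise linear interpolation of node values `c j` at the nodes `2 ^ j`. -/
noncomputable def pl (c : ℕ → ℝ) (k : ℕ) : ℝ :=
  c (Nat.log 2 k) +
    ((k : ℝ) - 2 ^ Nat.log 2 k) / 2 ^ Nat.log 2 k * (c (Nat.log 2 k + 1) - c (Nat.log 2 k))

theorem pl_pow (c : ℕ → ℝ) (j : ℕ) : pl c (2 ^ j) = c j := by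
  simp [pl, Nat.log_pow]

theorem pl_of_mem (c : ℕ → ℝ) (j k : ℕ) (h1 : 2 ^ j ≤ k) (h2 : k ≤ 2 ^ (j + 1)) :
    pl c k = c j + ((k : ℝ) - 2 ^ j) / 2 ^ j * (c (j + 1) - c j) := by
  rcases h2.lt_or_eq with h | h
  · have : Nat.log 2 k = j := Nat.log_eq_of_pow_le_of_lt_pow h1 h
    rw [pl, this]
  · rw [h, pl_pow]
    push_cast
    have : ((2 : ℝ) ^ (j + 1) - 2 ^ j) / 2 ^ j = 1 := by
      field_simp
      ring
    rw [this]
    ring

theorem lap_pl_of_not_node (c : ℕ → ℝ) (k : ℕ) (hk : k ≠ 0) (h : 2 ^ Nat.log 2 k ≠ k) :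
    lap (pl c) k = 0 := by
  set j := Nat.log 2 k with hj
  have h1 : 2 ^ j ≤ k := Nat.pow_log_le_self 2 hk
  have h2 : k < 2 ^ (j + 1) := Nat.lt_pow_succ_log_self (by norm_num) k
  have h3 : 2 ^ j < k := lt_of_le_of_ne h1 h
  rw [lap, if_neg hk, pl_of_mem c j k h1 h2.le, pl_of_mem c j (k - 1) (by omega) (by omega),
    pl_of_mem c j (k + 1) (by omega) (by omega)]
  rw [Nat.cast_sub (by omega : 1 ≤ k)]
  push_cast
  ring

theorem lap_pl_node (c : ℕ → ℝ) (j : ℕ) :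
    lap (pl c) (2 ^ (j + 1))
      = ((c (j + 1) - c j) / 2 ^ j - (c (j + 2) - c (j + 1)) / 2 ^ (j + 1)) / 2 := by
  have hpos : 0 < 2 ^ (j + 1) := by positivity
  have hge : 2 ^ j ≥ 1 := Nat.one_le_two_pow
  have h22 : 2 ^ (j + 1) = 2 * 2 ^ j := by ring
  have h23 : 2 ^ (j + 2) = 4 * 2 ^ j := by ring
  rw [lap, if_neg hpos.ne', pl_pow, pl_of_mem c j (2 ^ (j + 1) - 1) (by omega) (by omega),
    pl_of_mem c (j + 1) (2 ^ (j + 1) + 1) (by omega) (by omega)]
  rw [Nat.cast_sub (by omega : 1 ≤ 2 ^ (j + 1))]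
  push_cast
  field_simp
  ring

theorem pl_diff (c : ℕ → ℝ) (j k : ℕ) (h1 : 2 ^ j ≤ k) (h2 : k < 2 ^ (j + 1)) :
    pl c (k + 1) - pl c k = (c (j + 1) - c j) / 2 ^ j := by
  rw [pl_of_mem c j k h1 h2.le, pl_of_mem c j (k + 1) (by omega) (by omega)]
  push_cast
  field_simp
  ring

theorem energy_pl (c : ℕ → ℝ) (J : ℕ) :
    ∑ k ∈ range (2 ^ J), (pl c (k + 1) - pl c k) * (pl c (k + 1) - pl c k)
      = (pl c 1 - pl c 0) * (pl c 1 - pl c 0) + ∑ j ∈ range J, (c (j + 1) - c j) ^ 2 / 2 ^ j := by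
  induction J with
  | zero => simp
  | succ J ih =>
    have h2 : 2 ^ (J + 1) = 2 ^ J + 2 ^ J := by ring
    rw [h2, sum_range_add, ih, sum_range_succ (n := J)]
    have h3 : ∀ i ∈ range (2 ^ J),
        (pl c (2 ^ J + i + 1) - pl c (2 ^ J + i)) * (pl c (2 ^ J + i + 1) - pl c (2 ^ J + i))
          = ((c (J + 1) - c J) / 2 ^ J) ^ 2 := by
      intro i hi
      rw [mem_range] at hi
      rw [pl_diff c J (2 ^ J + i) (by omega) (by omega)]
      ring
    rw [sum_congr rfl h3, sum_const, card_range, nsmul_eq_mul]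
    push_cast
    field_simp
    ring

end Pool.Agent.H46
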