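import Mathlib
import Pool.Agent.H46.Bead

set_option autoImplicit false

namespace Pool.Agent.H46

open Finset Filter Topology

theorem sum_geom_weight (n : ℕ) :
    ∑ k ∈ range n, (k : ℝ) * (1 / 16) ^ k
      = 16 / 225 - (1 / 16) ^ n * (16 * n / 15 + 16 / 225) := by
  induction n with
  | zero => simp
  | succ n ih =>
    rw [sum_range_succ, ih]
    push_cast
    ring

theorem sum_geom_weight_le (n : ℕ) :
    ∑ k ∈ range n, (k : ℝ) * (1 / 16) ^ k ≤ 1 / 8 := by
  rw [sum_geom_weight]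
  have : (0 : ℝ) ≤ (1 / 16) ^ n * (16 * n / 15 + 16 / 225) := by positivity
  linarith

theorem sq_le_energy (r : ℕ → ℝ) (h0 : r 0 = 0) (k n : ℕ) (hk : k ≤ n) :
    r k ^ 2 ≤ k * ∑ i ∈ range n, (r (i + 1) - r i) * (r (i + 1) - r i) := by
  have h1 : r k = ∑ i ∈ range k, (r (i + 1) - r i) := by
    rw [sum_range_sub, h0, sub_zero]
  have h2 : (∑ i ∈ range k, (r (i + 1) - r i)) ^ 2 ≤ k * ∑ i ∈ range k, (r (i + 1) - r i) ^ 2 := by
    have := sq_sum_le_card_mul_sum_sq (s := range k) (f := fun i => r (i + 1) - r i)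
    simpa using this
  rw [h1]
  refine h2.trans ?_
  apply mul_le_mul_of_nonneg_left _ (by positivity)
  calc ∑ i ∈ range k, (r (i + 1) - r i) ^ 2
      ≤ ∑ i ∈ range n, (r (i + 1) - r i) ^ 2 :=
        sum_le_sum_of_subset_of_nonneg (range_mono hk) (fun i _ _ => sq_nonneg _)
    _ = ∑ i ∈ range n, (r (i + 1) - r i) * (r (i + 1) - r i) :=
        sum_congr rfl fun i _ => by ring

theorem light_le_energy (r : ℕ → ℝ) (h0 : r 0 = 0)
    (hnode : ∀ j, r (2 ^ j) = 0) (n : ℕ) :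
    4 * ∑ k ∈ range (n + 1), mass k * r k ^ 2
      ≤ (∑ i ∈ range n, (r (i + 1) - r i) * (r (i + 1) - r i)) / 2 := by
  set E := ∑ i ∈ range n, (r (i + 1) - r i) * (r (i + 1) - r i) with hE
  have hE0 : 0 ≤ E := sum_nonneg fun i _ => mul_self_nonneg _
  have h1 : ∑ k ∈ range (n + 1), mass k * r k ^ 2
      ≤ ∑ k ∈ range (n + 1), ((k : ℝ) * (1 / 16) ^ k) * E := by
    apply sum_le_sum
    intro k hk
    rw [mem_range] at hk
    by_cases hn : 2 ^ Nat.log 2 k = k
    · have : r k = 0 := by rw [← hn]; exact hnode _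
      rw [this]
      have : (0 : ℝ) ≤ (k : ℝ) * (1 / 16) ^ k * E := by positivity
      simpa using this
    · rw [mass_light k hn]
      have h2 := sq_le_energy r h0 k n (by omega)
      have h3 : (0 : ℝ) ≤ (1 / 16) ^ k := by positivity
      calc (1 / 16) ^ k * r k ^ 2 ≤ (1 / 16) ^ k * (k * E) := by
            exact mul_le_mul_of_nonneg_left h2 h3
        _ = (k : ℝ) * (1 / 16) ^ k * E := by ring
  rw [← sum_mul] at h1
  have h4 := sum_geom_weight_le (n + 1)
  have h5 : (∑ k ∈ range (n + 1), (k : ℝ) * (1 / 16) ^ k) * E ≤ 1 / 8 * E :=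
    mul_le_mul_of_nonneg_right h4 hE0
  linarith

theorem twelve_le (j : ℕ) (hj : 7 ≤ j) : 12 * (j + 1) ≤ 2 ^ j := by
  induction j, hj using Nat.le_induction with
  | base => norm_num
  | succ n hn ih =>
    rw [pow_succ]
    omega

theorem sum_node_le (f : ℕ → ℝ) (hf : ∀ k, 0 ≤ f k) (J : ℕ) :
    ∑ j ∈ range (J + 1), f (2 ^ j) ≤ ∑ k ∈ range (2 ^ J + 1), f k := by
  have hinj : Set.InjOn (fun j : ℕ => 2 ^ j) (range (J + 1) : Set ℕ) :=
    (Nat.pow_right_injective (le_refl 2)).injOn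
  rw [← sum_image (f := f) hinj]
  apply sum_le_sum_of_subset_of_nonneg
  · intro k hk
    rw [mem_image] at hk
    obtain ⟨j, hj, rfl⟩ := hk
    rw [mem_range] at hj ⊢
    have : 2 ^ j ≤ 2 ^ J := Nat.pow_le_pow_right (by norm_num) (by omega)
    omega
  · intro k _ _
    exact hf k

theorem sum_node_eq (f : ℕ → ℝ) (J : ℕ) (h0 : f 0 = 0)
    (hf : ∀ k, k ≠ 0 → 2 ^ Nat.log 2 k ≠ k → f k = 0) :
    ∑ k ∈ range (2 ^ J + 1), f k = ∑ j ∈ range (J + 1), f (2 ^ j) := by
  have hinj : Set.InjOn (fun j : ℕ => 2 ^ j) (range (J + 1) : Set ℕ) :=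
    (Nat.pow_right_injective (le_refl 2)).injOn
  rw [← sum_image (f := f) hinj]
  symm
  apply sum_subset
  · intro k hk
    rw [mem_image] at hk
    obtain ⟨j, hj, rfl⟩ := hk
    rw [mem_range] at hj ⊢
    have : 2 ^ j ≤ 2 ^ J := Nat.pow_le_pow_right (by norm_num) (by omega)
    omega
  · intro k hk hk2
    rcases Nat.eq_zero_or_pos k with h | h
    · rw [h, h0]
    · apply hf k h.ne'
      intro heq
      apply hk2
      rw [mem_image]
      refine ⟨Nat.log 2 k, ?_, heq⟩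
      rw [mem_range] at hk ⊢
      have h2 : 2 ^ Nat.log 2 k ≤ 2 ^ J := by rw [heq]; omega
      have := (Nat.pow_le_pow_iff_right (by norm_num : 1 < 2)).mp h2
      omega

/-- The spectral gap estimate: `C - 1` is bounded below on sequences supported in `[128, ∞)`. -/
theorem real_lower_gap (x : ℕ → ℝ) (J : ℕ) (hx0 : ∀ k, k < 128 → x k = 0)
    (hxJ : ∀ k, 2 ^ J ≤ k → x k = 0) :
    9 / 64 * ∑ k ∈ range (2 ^ J + 1), x k ^ 2 ≤ ∑ k ∈ range (2 ^ J + 1), jop 1 x k ^ 2 := by
  obtain ⟨w, rfl, hw⟩ := twist_surj x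
  have hw0 : ∀ k, k < 128 → w k = 0 := fun k hk => hw k (hx0 k hk)
  have hwJ : ∀ k, 2 ^ J ≤ k → w k = 0 := fun k hk => hw k (hxJ k hk)
  set N := 2 ^ J with hN
  let c : ℕ → ℝ := fun j => w (2 ^ j)
  let p : ℕ → ℝ := pl c
  let r : ℕ → ℝ := fun k => w k - p k
  have hc0 : ∀ j, j < 7 → c j = 0 := by
    intro j hj
    apply hw0
    calc 2 ^ j < 2 ^ 7 := Nat.pow_lt_pow_right (by norm_num) hj
      _ = 128 := by norm_num
  have hcJ : ∀ j, J ≤ j → c j = 0 := by
    intro j hj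
    apply hwJ
    exact Nat.pow_le_pow_right (by norm_num) hj
  have hp0 : p 0 = 0 := by
    simp only [p, pl, Nat.log_zero_right]
    rw [hc0 0 (by norm_num), hc0 (0 + 1) (by norm_num)]
    simp
  have hp1 : p 1 = 0 := by
    have := pl_pow c 0
    simp only [pow_zero] at this
    rw [show p 1 = pl c 1 from rfl, this, hc0 0 (by norm_num)]
  have hpN : p N = 0 := by
    rw [show p N = pl c N from rfl, hN, pl_pow, hcJ J le_rfl]
  have hrN : r N = 0 := by
    simp only [r, hpN, hwJ N le_rfl, sub_zero]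
  have hr0 : r 0 = 0 := by
    simp only [r, hp0, hw0 0 (by norm_num), sub_zero]
  have hrnode : ∀ j, r (2 ^ j) = 0 := by
    intro j
    simp only [r]
    rw [show p (2 ^ j) = pl c (2 ^ j) from rfl, pl_pow]
    simp [c]
  have hwN : w N = 0 := hwJ N le_rfl
  -- the cross terms vanish
  have hcross : ∑ k ∈ range (N + 1), lap p k * r k = 0 := by
    apply sum_eq_zero
    intro k _
    by_cases hn : 2 ^ Nat.log 2 k = k
    · rw [← hn, hrnode, mul_zero]
    · rcases Nat.eq_zero_or_pos k with h | h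
      · rw [h, hr0, mul_zero]
      · rw [show lap p k = lap (pl c) k from rfl, lap_pl_of_not_node c k h.ne' hn, zero_mul]
  have hcross2 : ∑ k ∈ range (N + 1), lap r k * p k = 0 := by
    rw [sum_lap_mul' r p N hpN, ← hcross, sum_lap_mul' p r N hrN]
    congr 1
    congr 1
    · ring
    · apply sum_congr rfl
      intro k _
      ring
  have hlap : ∀ k, lap w k = lap p k + lap r k := by
    intro k
    simp only [lap, r]
    split_ifs <;> ring
  -- energy of `p`
  have hEp : ∑ k ∈ range (N + 1), lap p k * p k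
      ≤ 1 / 4 * ∑ k ∈ range (N + 1), mass k * p k ^ 2 := by
    rw [sum_lap_mul' p p N hpN, hp0]
    have h1 : ∑ k ∈ range N, (p (k + 1) - p k) * (p (k + 1) - p k)
        = ∑ j ∈ range J, (c (j + 1) - c j) ^ 2 / 2 ^ j := by
      have := energy_pl c J
      rw [hN, this, show pl c 1 = p 1 from rfl, show pl c 0 = p 0 from rfl, hp0, hp1]
      simp
    rw [h1]
    have h2 : ∑ j ∈ range J, (c (j + 1) - c j) ^ 2 / 2 ^ j
        ≤ 2 * ∑ j ∈ range J, c (j + 1) ^ 2 / 2 ^ j + 2 * ∑ j ∈ range J, c j ^ 2 / 2 ^ j := by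
      rw [mul_sum, mul_sum, ← sum_add_distrib]
      apply sum_le_sum
      intro j _
      rw [mul_div_assoc', mul_div_assoc', ← add_div]
      apply div_le_div_of_nonneg_right _ (by positivity)
      nlinarith [sq_nonneg (c (j + 1) + c j)]
    have h3 : ∑ j ∈ range J, c (j + 1) ^ 2 / 2 ^ j ≤ ∑ j ∈ range (J + 1), 2 * (c j ^ 2 / 2 ^ j) := by
      rw [sum_range_succ']
      have h4 : ∀ j ∈ range J, c (j + 1) ^ 2 / 2 ^ j = 2 * (c (j + 1) ^ 2 / 2 ^ (j + 1)) := by
        intro j _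
        rw [pow_succ (2 : ℝ) j]
        field_simp
      rw [sum_congr rfl h4]
      have : 0 ≤ 2 * (c 0 ^ 2 / (2 : ℝ) ^ 0) := by positivity
      linarith
    have h5 : ∑ j ∈ range J, c j ^ 2 / 2 ^ j ≤ ∑ j ∈ range (J + 1), c j ^ 2 / 2 ^ j := by
      rw [sum_range_succ]
      have : 0 ≤ c J ^ 2 / (2 : ℝ) ^ J := by positivity
      linarith
    rw [← mul_sum] at h3
    have h6 : ∑ j ∈ range (J + 1), c j ^ 2 / 2 ^ j
        ≤ 1 / 12 * ∑ j ∈ range (J + 1), mass (2 ^ j) * p (2 ^ j) ^ 2 := by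
      rw [mul_sum]
      apply sum_le_sum
      intro j _
      rw [show p (2 ^ j) = pl c (2 ^ j) from rfl, pl_pow, mass_pow]
      rcases lt_or_ge j 7 with hj | hj
      · rw [hc0 j hj]; simp
      · have h7 : (12 : ℝ) * (j + 1) ≤ 2 ^ j := by exact_mod_cast twelve_le j hj
        have h8 : (1 : ℝ) / 2 ^ j ≤ 1 / (12 * (j + 1)) :=
          one_div_le_one_div_of_le (by positivity) h7
        calc c j ^ 2 / 2 ^ j = c j ^ 2 * (1 / 2 ^ j) := by ring
          _ ≤ c j ^ 2 * (1 / (12 * (j + 1))) := mul_le_mul_of_nonneg_left h8 (sq_nonneg _)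
          _ = 1 / 12 * (1 / ((j : ℝ) + 1) * c j ^ 2) := by field_simp
    have h9 := sum_node_le (fun k => mass k * p k ^ 2)
      (fun k => mul_nonneg (mass_pos k).le (sq_nonneg _)) J
    rw [← hN] at h9
    linarith
  -- energy of `r`
  have hEr : 4 * ∑ k ∈ range (N + 1), mass k * r k ^ 2 ≤ ∑ k ∈ range (N + 1), lap r k * r k := by
    rw [sum_lap_mul' r r N hrN, hr0]
    have := light_le_energy r hr0 hrnode N
    linarith
  set P := ∑ k ∈ range (N + 1), mass k * p k ^ 2 with hP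
  set R := ∑ k ∈ range (N + 1), mass k * r k ^ 2 with hR
  have hP0 : 0 ≤ P := sum_nonneg fun k _ => mul_nonneg (mass_pos k).le (sq_nonneg _)
  have hR0 : 0 ≤ R := sum_nonneg fun k _ => mul_nonneg (mass_pos k).le (sq_nonneg _)
  let y : ℕ → ℝ := fun k => jop 1 (twist w) k
  let z : ℕ → ℝ := fun k => (-1) ^ k * (sm k * (r k - p k))
  have hyz : ∑ k ∈ range (N + 1), y k * z k
      = (∑ k ∈ range (N + 1), lap r k * r k) - (∑ k ∈ range (N + 1), lap p k * p k) - R + P := by
    have h1 : ∀ k, y k * z k = lap p k * r k + lap r k * r k - lap p k * p k - lap r k * p k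
        - mass k * r k ^ 2 + mass k * p k ^ 2 := by
      intro k
      have hs := (sm_pos k).ne'
      simp only [y, z]
      rw [jop_twist, hlap]
      have h2 := neg_one_pow_mul_self k
      have h3 : (-1 : ℝ) ^ k * ((lap p k + lap r k) / sm k - 1 * (sm k * w k)) *
          ((-1) ^ k * (sm k * (r k - p k)))
          = ((-1 : ℝ) ^ k * (-1) ^ k) * (((lap p k + lap r k) / sm k - 1 * (sm k * w k)) *
            (sm k * (r k - p k))) := by ring
      rw [h3, h2, one_mul]
      have h4 : w k = p k + r k := by simp [r]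
      have h5 : ((lap p k + lap r k) / sm k - 1 * (sm k * w k)) * (sm k * (r k - p k))
          = (lap p k + lap r k) * (r k - p k) - sm k ^ 2 * (w k * (r k - p k)) := by
        field_simp
      rw [h5, sm_sq, h4]
      ring
    simp only [h1]
    rw [sum_add_distrib, sum_sub_distrib, sum_sub_distrib, sum_sub_distrib, sum_add_distrib,
      hcross, hcross2]
    ring
  have hz2 : ∑ k ∈ range (N + 1), z k ^ 2 ≤ 2 * (P + R) := by
    rw [hP, hR, ← sum_add_distrib, mul_sum]
    apply sum_le_sum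
    intro k _
    simp only [z]
    have h2 := neg_one_pow_mul_self k
    have h3 : ((-1 : ℝ) ^ k * (sm k * (r k - p k))) ^ 2
      = ((-1 : ℝ) ^ k * (-1) ^ k) * (sm k ^ 2 * (r k - p k) ^ 2) := by ring
    rw [h3, h2, sm_sq, one_mul]
    have := mass_pos k
    nlinarith [sq_nonneg (r k + p k), mul_nonneg this.le (sq_nonneg (r k + p k))]
  have hx2 : ∑ k ∈ range (N + 1), twist w k ^ 2 ≤ 2 * (P + R) := by
    rw [hP, hR, ← sum_add_distrib, mul_sum]
    apply sum_le_sum
    intro k _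
    simp only [twist]
    have h2 := neg_one_pow_mul_self k
    have h3 : ((-1 : ℝ) ^ k * sm k * w k) ^ 2
      = ((-1 : ℝ) ^ k * (-1) ^ k) * (sm k ^ 2 * (w k) ^ 2) := by ring
    have h4 : w k = p k + r k := by simp [r]
    rw [h3, h2, sm_sq, one_mul, h4]
    have := mass_pos k
    nlinarith [sq_nonneg (r k - p k), mul_nonneg this.le (sq_nonneg (r k - p k))]
  have hcs := sum_mul_sq_le_sq_mul_sq (range (N + 1)) y z
  have hlow : 3 / 4 * (P + R) ≤ ∑ k ∈ range (N + 1), y k * z k := by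
    rw [hyz]
    linarith
  have hY : ∑ k ∈ range (N + 1), jop 1 (twist w) k ^ 2 = ∑ k ∈ range (N + 1), y k ^ 2 := rfl
  rw [hY]
  set Y := ∑ k ∈ range (N + 1), y k ^ 2 with hYd
  have hY0 : 0 ≤ Y := sum_nonneg fun k _ => sq_nonneg _
  rcases (add_nonneg hP0 hR0).eq_or_lt with hQ | hQ
  · have : ∑ k ∈ range (N + 1), twist w k ^ 2 ≤ 0 := by rw [← hQ] at hx2; linarith
    linarith
  · have h1 : (3 / 4 * (P + R)) ^ 2 ≤ Y * (2 * (P + R)) := by
      calc (3 / 4 * (P + R)) ^ 2 ≤ (∑ k ∈ range (N + 1), y k * z k) ^ 2 := by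
            apply pow_le_pow_left₀ (by positivity) hlow
        _ ≤ Y * ∑ k ∈ range (N + 1), z k ^ 2 := hcs
        _ ≤ Y * (2 * (P + R)) := mul_le_mul_of_nonneg_left hz2 hY0
    have h2 : 9 / 32 * (P + R) ≤ Y := by
      by_contra hc
      push Not at hc
      nlinarith
    linarith

end Pool.Agent.H46
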