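import Mathlib
import Pool.Agent.H46.BeadGap

set_option autoImplicit false

namespace Pool.Agent.H46

open Finset Filter Topology

theorem poly_le_pow (j : ℕ) : (j + 2) * (j + 3) ≤ 6 * 2 ^ j := by
  induction j with
  | zero => norm_num
  | succ j ih =>
    rw [pow_succ]
    nlinarith

theorem jop_zero_twist_sq (w : ℕ → ℝ) (k : ℕ) :
    jop 0 (twist w) k ^ 2 = lap w k ^ 2 / mass k := by
  have hs := (sm_pos k).ne'
  rw [jop_twist, ← sm_sq]
  have h2 := neg_one_pow_mul_self k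
  have h3 : ((-1 : ℝ) ^ k * (lap w k / sm k - 0 * (sm k * w k))) ^ 2
      = ((-1 : ℝ) ^ k * (-1) ^ k) * (lap w k / sm k) ^ 2 := by ring
  rw [h3, h2]
  field_simp

theorem twist_sq (w : ℕ → ℝ) (k : ℕ) : twist w k ^ 2 = mass k * w k ^ 2 := by
  rw [← sm_sq]
  have h2 := neg_one_pow_mul_self k
  have h3 : ((-1 : ℝ) ^ k * sm k * w k) ^ 2
      = ((-1 : ℝ) ^ k * (-1) ^ k) * (sm k ^ 2 * (w k) ^ 2) := by ring
  rw [twist, h3, h2, one_mul]

/-- Piecewise linear sequences with far away nodes are almost in the kernel. -/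
theorem real_upper (n : ℕ) (ε : ℝ) (hε : 0 < ε) : ∃ J : ℕ, 3 ≤ J ∧ ∀ c : ℕ → ℝ,
    (∀ j, j < J → c j = 0) → (∀ j, J + n ≤ j → c j = 0) →
    ∑ k ∈ range (2 ^ (J + n) + 1), jop 0 (twist (pl c)) k ^ 2
      ≤ ε ^ 2 * ∑ k ∈ range (2 ^ (J + n) + 1), twist (pl c) k ^ 2 := by
  obtain ⟨j1, hj1⟩ := exists_pow_lt_of_lt_one (show 0 < ε ^ 2 / 3 / (15 / 2) by positivity)
    (show (1 / 2 : ℝ) < 1 by norm_num)
  refine ⟨j1 + 5, by omega, fun c hc0 hcM => ?_⟩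
  set J := j1 + 5 with hJ
  set M := J + n with hM
  set p := pl c with hp
  have hp0 : p 0 = 0 := by
    simp only [p, pl, Nat.log_zero_right]
    rw [hc0 0 (by omega), hc0 (0 + 1) (by omega)]
    simp
  have hp1 : p 1 = 0 := by
    have := pl_pow c 0
    simp only [pow_zero] at this
    rw [show p 1 = pl c 1 from rfl, this, hc0 0 (by omega)]
  have hp2 : p 2 = 0 := by
    have := pl_pow c 1
    simp only [pow_one] at this
    rw [show p 2 = pl c 2 from rfl, this, hc0 1 (by omega)]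
  have hl0 : lap p 0 = 0 := by simp [lap, hp0, hp1]
  have hl1 : lap p 1 = 0 := by simp [lap, hp0, hp1, hp2]
  -- reduce to nodes
  have hsum : ∑ k ∈ range (2 ^ M + 1), jop 0 (twist p) k ^ 2
      = ∑ j ∈ range (M + 1), lap p (2 ^ j) ^ 2 * (j + 1) := by
    rw [sum_node_eq (fun k => jop 0 (twist p) k ^ 2) M]
    · apply sum_congr rfl
      intro j _
      rw [jop_zero_twist_sq, mass_pow]
      field_simp
    · rw [jop_zero_twist_sq, hl0]; simp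
    · intro k hk hn
      rw [jop_zero_twist_sq, show lap p k = lap (pl c) k from rfl, lap_pl_of_not_node c k hk hn]
      simp
  rw [hsum, sum_range_succ', pow_zero, hl1]
  -- the weight bound
  have hwt : ∀ j, J ≤ j + 2 → 5 / 4 * ((j : ℝ) + 2) / 4 ^ j ≤ ε ^ 2 / 3 / ((j : ℝ) + 3) := by
    intro j hj
    have h1 : (((j + 2) * (j + 3) : ℕ) : ℝ) ≤ ((6 * 2 ^ j : ℕ) : ℝ) := by
      exact_mod_cast poly_le_pow j
    push_cast at h1
    have h2 : (1 / 2 : ℝ) ^ j ≤ (1 / 2) ^ j1 := by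
      apply pow_le_pow_of_le_one (by norm_num) (by norm_num)
      omega
    have h3 : (1 / 2 : ℝ) ^ j * (15 / 2) ≤ ε ^ 2 / 3 := by
      have h4 := h2.trans hj1.le
      have h5 : (1 / 2 : ℝ) ^ j * (15 / 2) ≤ ε ^ 2 / 3 / (15 / 2) * (15 / 2) :=
        mul_le_mul_of_nonneg_right h4 (by norm_num)
      have h6 : ε ^ 2 / 3 / (15 / 2) * (15 / 2) = ε ^ 2 / 3 := by field_simp
      linarith
    rw [le_div_iff₀ (by positivity)]
    refine le_trans ?_ h3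
    have h7 : (4 : ℝ) ^ j = 2 ^ j * 2 ^ j := by
      rw [← mul_pow]; norm_num
    have h8 : (1 / 2 : ℝ) ^ j = 1 / 2 ^ j := by
      rw [div_pow, one_pow]
    have h9 : (0 : ℝ) < 2 ^ j := by positivity
    have e1 : 5 / 4 * ((j : ℝ) + 2) / 4 ^ j * ((j : ℝ) + 3)
        = 5 / 4 * (((j : ℝ) + 2) * ((j : ℝ) + 3)) / (2 ^ j * 2 ^ j) := by
      rw [h7]; ring
    have e2 : (1 / 2 : ℝ) ^ j * (15 / 2) = 5 / 4 * (6 * 2 ^ j) / (2 ^ j * 2 ^ j) := by
      rw [h8]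
      field_simp
      norm_num
    rw [e1, e2]
    apply div_le_div_of_nonneg_right _ (by positivity)
    linarith
  have hterm : ∀ j ∈ range M, lap p (2 ^ (j + 1)) ^ 2 * (((j + 1 : ℕ) : ℝ) + 1)
      ≤ ε ^ 2 / 3 * (c j ^ 2 / ((j : ℝ) + 1) + c (j + 1) ^ 2 / (((j + 1 : ℕ) : ℝ) + 1)
        + c (j + 2) ^ 2 / (((j + 2 : ℕ) : ℝ) + 1)) := by
    intro j _
    rw [show lap p (2 ^ (j + 1)) = lap (pl c) (2 ^ (j + 1)) from rfl, lap_pl_node]
    rcases lt_or_ge (j + 2) J with hj | hj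
    · rw [hc0 j (by omega), hc0 (j + 1) (by omega), hc0 (j + 2) hj]
      simp
    · have hw := hwt j hj
      have h4 : (4 : ℝ) ^ j = 2 ^ j * 2 ^ j := by
        rw [← mul_pow]; norm_num
      have h9 : (0 : ℝ) < 2 ^ j := by positivity
      have hsq : (((c (j + 1) - c j) / 2 ^ j - (c (j + 2) - c (j + 1)) / 2 ^ (j + 1)) / 2) ^ 2
          ≤ 5 / 4 * (c j ^ 2 + c (j + 1) ^ 2 + c (j + 2) ^ 2) / 4 ^ j := by
        have h10 : (((c (j + 1) - c j) / 2 ^ j - (c (j + 2) - c (j + 1)) / 2 ^ (j + 1)) / 2) ^ 2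
            = ((c (j + 1) - c j) - (c (j + 2) - c (j + 1)) / 2) ^ 2 / 4 / 4 ^ j := by
          rw [h4, pow_succ (2 : ℝ) j]
          field_simp
          ring
        rw [h10]
        apply div_le_div_of_nonneg_right _ (by positivity)
        nlinarith [sq_nonneg (c j + 2 * c (j + 1)), sq_nonneg (c (j + 1) + c (j + 2)),
          sq_nonneg (c j), sq_nonneg (c (j + 1)), sq_nonneg (c (j + 2)),
          sq_nonneg (c j - c (j + 2)), sq_nonneg (c j + c (j + 1)), sq_nonneg (c (j + 1) - c j),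
          sq_nonneg (c j + c (j + 1) - c (j + 2))]
      push_cast
      have hj3 : ∀ d : ℝ, ∀ i : ℝ, 0 < (j : ℝ) + i → i ≤ 3 →
          ε ^ 2 / 3 / ((j : ℝ) + 3) * d ^ 2 ≤ ε ^ 2 / 3 * (d ^ 2 / ((j : ℝ) + i)) := by
        intro d i h0 hi
        have h11 : (1 : ℝ) / ((j : ℝ) + 3) ≤ 1 / ((j : ℝ) + i) :=
          one_div_le_one_div_of_le h0 (by linarith)
        calc ε ^ 2 / 3 / ((j : ℝ) + 3) * d ^ 2 = ε ^ 2 / 3 * d ^ 2 * (1 / ((j : ℝ) + 3)) := by ring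
          _ ≤ ε ^ 2 / 3 * d ^ 2 * (1 / ((j : ℝ) + i)) :=
            mul_le_mul_of_nonneg_left h11 (by positivity)
          _ = ε ^ 2 / 3 * (d ^ 2 / ((j : ℝ) + i)) := by ring
      have hjn : (0 : ℝ) ≤ j := Nat.cast_nonneg j
      have e0 := hj3 (c j) 1 (by linarith) (by norm_num)
      have e1 := hj3 (c (j + 1)) (1 + 1) (by linarith) (by norm_num)
      have e2 := hj3 (c (j + 2)) (2 + 1) (by linarith) (by norm_num)
      have hS : 0 ≤ c j ^ 2 + c (j + 1) ^ 2 + c (j + 2) ^ 2 := by positivity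
      calc (((c (j + 1) - c j) / 2 ^ j - (c (j + 2) - c (j + 1)) / 2 ^ (j + 1)) / 2) ^ 2
            * ((j : ℝ) + 1 + 1)
          ≤ 5 / 4 * (c j ^ 2 + c (j + 1) ^ 2 + c (j + 2) ^ 2) / 4 ^ j * ((j : ℝ) + 1 + 1) :=
            mul_le_mul_of_nonneg_right hsq (by linarith)
        _ = 5 / 4 * ((j : ℝ) + 2) / 4 ^ j * (c j ^ 2 + c (j + 1) ^ 2 + c (j + 2) ^ 2) := by ring
        _ ≤ ε ^ 2 / 3 / ((j : ℝ) + 3) * (c j ^ 2 + c (j + 1) ^ 2 + c (j + 2) ^ 2) :=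
            mul_le_mul_of_nonneg_right hw hS
        _ = ε ^ 2 / 3 / ((j : ℝ) + 3) * c j ^ 2 + ε ^ 2 / 3 / ((j : ℝ) + 3) * c (j + 1) ^ 2
            + ε ^ 2 / 3 / ((j : ℝ) + 3) * c (j + 2) ^ 2 := by ring
        _ ≤ ε ^ 2 / 3 * (c j ^ 2 / ((j : ℝ) + 1)) + ε ^ 2 / 3 * (c (j + 1) ^ 2 / ((j : ℝ) + (1 + 1)))
            + ε ^ 2 / 3 * (c (j + 2) ^ 2 / ((j : ℝ) + (2 + 1))) := by linarith
        _ = ε ^ 2 / 3 * (c j ^ 2 / ((j : ℝ) + 1) + c (j + 1) ^ 2 / ((j : ℝ) + 1 + 1)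
            + c (j + 2) ^ 2 / ((j : ℝ) + 2 + 1)) := by
            rw [show (j : ℝ) + (1 + 1) = (j : ℝ) + 1 + 1 by ring,
              show (j : ℝ) + (2 + 1) = (j : ℝ) + 2 + 1 by ring]
            ring
  have hfirst := sum_le_sum hterm
  rw [← mul_sum, sum_add_distrib, sum_add_distrib] at hfirst
  set F : ℕ → ℝ := fun j => c j ^ 2 / ((j : ℝ) + 1) with hF
  have hF0 : ∀ j, 0 ≤ F j := fun j => by simp only [F]; positivity
  have hFM : F M = 0 := by simp [F, hcM M le_rfl]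
  have hFM1 : F (M + 1) = 0 := by simp [F, hcM (M + 1) (by omega)]
  have s0 : ∑ j ∈ range M, c j ^ 2 / ((j : ℝ) + 1) = ∑ j ∈ range M, F j := rfl
  have s1 : ∑ j ∈ range M, c (j + 1) ^ 2 / (((j + 1 : ℕ) : ℝ) + 1) ≤ ∑ j ∈ range M, F j := by
    have h1 := sum_range_succ' F M
    have h2 := sum_range_succ F M
    rw [h1, hFM, add_zero] at h2
    have h3 : ∑ j ∈ range M, c (j + 1) ^ 2 / (((j + 1 : ℕ) : ℝ) + 1)
      = ∑ j ∈ range M, F (j + 1) := rfl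
    rw [h3]
    linarith [hF0 0]
  have s2 : ∑ j ∈ range M, c (j + 2) ^ 2 / (((j + 2 : ℕ) : ℝ) + 1) ≤ ∑ j ∈ range M, F j := by
    have h1 := sum_range_succ' (fun j => F (j + 1)) M
    have h2 := sum_range_succ (fun j => F (j + 1)) M
    rw [h1, hFM1, add_zero] at h2
    have h4 := sum_range_succ' F M
    have h5 := sum_range_succ F M
    rw [h4, hFM, add_zero] at h5
    have h3 : ∑ j ∈ range M, c (j + 2) ^ 2 / (((j + 2 : ℕ) : ℝ) + 1)
      = ∑ j ∈ range M, F (j + 1 + 1) := rfl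
    rw [h3]
    linarith [hF0 0, hF0 (0 + 1)]
  have hlow : ∑ j ∈ range M, F j ≤ ∑ k ∈ range (2 ^ M + 1), twist p k ^ 2 := by
    have h1 := sum_node_le (fun k => mass k * p k ^ 2)
      (fun k => mul_nonneg (mass_pos k).le (sq_nonneg _)) M
    have h2 : ∑ j ∈ range (M + 1), mass (2 ^ j) * p (2 ^ j) ^ 2 = ∑ j ∈ range (M + 1), F j := by
      apply sum_congr rfl
      intro j _
      rw [show p (2 ^ j) = pl c (2 ^ j) from rfl, pl_pow, mass_pow]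
      simp only [F]
      ring
    have h3 : ∑ k ∈ range (2 ^ M + 1), twist p k ^ 2
        = ∑ k ∈ range (2 ^ M + 1), mass k * p k ^ 2 :=
      sum_congr rfl fun k _ => twist_sq p k
    rw [h3]
    have h4 := sum_range_succ F M
    rw [hFM, add_zero] at h4
    linarith
  have hε2 : 0 ≤ ε ^ 2 := sq_nonneg ε
  calc ∑ k ∈ range M, lap p (2 ^ (k + 1)) ^ 2 * (((k + 1 : ℕ) : ℝ) + 1)
        + 0 ^ 2 * (((0 : ℕ) : ℝ) + 1)
      = ∑ k ∈ range M, lap p (2 ^ (k + 1)) ^ 2 * (((k + 1 : ℕ) : ℝ) + 1) := by ring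
    _ ≤ ε ^ 2 / 3 * (∑ j ∈ range M, c j ^ 2 / ((j : ℝ) + 1)
        + ∑ j ∈ range M, c (j + 1) ^ 2 / (((j + 1 : ℕ) : ℝ) + 1)
        + ∑ j ∈ range M, c (j + 2) ^ 2 / (((j + 2 : ℕ) : ℝ) + 1)) := hfirst
    _ ≤ ε ^ 2 / 3 * (3 * ∑ j ∈ range M, F j) := by
        apply mul_le_mul_of_nonneg_left _ (by positivity)
        rw [s0]
        linarith
    _ = ε ^ 2 * ∑ j ∈ range M, F j := by ring
    _ ≤ ε ^ 2 * ∑ k ∈ range (2 ^ M + 1), twist p k ^ 2 :=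
        mul_le_mul_of_nonneg_left hlow hε2

end Pool.Agent.H46
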