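import Mathlib
import Pool.Agent.H46.BeadUpper

set_option autoImplicit false

namespace Pool.Agent.H46

open Finset Filter Topology

theorem expr_sq (t : ℝ) (x : ℕ → ℂ) (k : ℕ) :
    ‖(if k = 0 then (0 : ℂ) else (ja (k - 1) : ℂ) * x (k - 1))
      + (jb k : ℂ) * x k + (ja k : ℂ) * x (k + 1) - (t : ℂ) * x k‖ ^ 2
    = jop t (fun k => (x k).re) k ^ 2 + jop t (fun k => (x k).im) k ^ 2 := by
  rw [← Complex.normSq_eq_norm_sq, Complex.normSq_apply]
  unfold jop
  split_ifs
  · simp
    ring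
  · simp
    ring

theorem norm_sq_re_im (z : ℂ) : ‖z‖ ^ 2 = z.re ^ 2 + z.im ^ 2 := by
  rw [← Complex.normSq_eq_norm_sq, Complex.normSq_apply]
  ring

theorem tsum_expr (t : ℝ) (x : ℕ →₀ ℂ) (N : ℕ) (hx : ∀ k, N ≤ k → x k = 0) :
    ∑' k : ℕ, ‖(if k = 0 then (0 : ℂ) else (ja (k - 1) : ℂ) * x (k - 1))
      + (jb k : ℂ) * x k + (ja k : ℂ) * x (k + 1) - (t : ℂ) * x k‖ ^ 2
    = ∑ k ∈ range (N + 1), jop t (fun k => (x k).re) k ^ 2
      + ∑ k ∈ range (N + 1), jop t (fun k => (x k).im) k ^ 2 := by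
  rw [← sum_add_distrib, tsum_eq_sum (s := range (N + 1))]
  · exact sum_congr rfl fun k _ => expr_sq t x k
  · intro k hk
    rw [mem_range] at hk
    rw [hx k (by omega), hx (k + 1) (by omega), hx (k - 1) (by omega)]
    simp

theorem tsum_norm_sq (x : ℕ →₀ ℂ) (N : ℕ) (hx : ∀ k, N ≤ k → x k = 0) :
    ∑' k : ℕ, ‖x k‖ ^ 2
    = ∑ k ∈ range (N + 1), (x k).re ^ 2 + ∑ k ∈ range (N + 1), (x k).im ^ 2 := by
  rw [← sum_add_distrib, tsum_eq_sum (s := range (N + 1))]
  · exact sum_congr rfl fun k _ => norm_sq_re_im _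
  · intro k hk
    rw [mem_range] at hk
    rw [hx k (by omega)]
    simp

theorem exists_bound (x : ℕ →₀ ℂ) : ∃ N : ℕ, ∀ k, N ≤ k → x k = 0 := by
  refine ⟨x.support.sup id + 1, fun k hk => ?_⟩
  by_contra h
  have h1 : k ∈ x.support := Finsupp.mem_support_iff.mpr h
  have h2 : k ≤ x.support.sup id := le_sup (f := id) h1
  omega

theorem tsum_norm_sq_pos (x : ℕ →₀ ℂ) (hx : x ≠ 0) : 0 < ∑' k : ℕ, ‖x k‖ ^ 2 := by
  obtain ⟨N, hN⟩ := exists_bound x
  obtain ⟨k, hk⟩ : ∃ k, x k ≠ 0 := by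
    by_contra hc
    push Not at hc
    exact hx (Finsupp.ext hc)
  have hsum : ∑' k : ℕ, ‖x k‖ ^ 2 = ∑ k ∈ range N, ‖x k‖ ^ 2 := by
    apply tsum_eq_sum
    intro k hk
    rw [mem_range] at hk
    rw [hN k (by omega)]
    simp
  rw [hsum]
  apply sum_pos' (fun _ _ => sq_nonneg _)
  refine ⟨k, ?_, by positivity⟩
  rw [mem_range]
  by_contra hc
  exact hk (hN k (by omega))

/-- The operator is essentially self-adjoint: no square summable solution at `i`. -/
theorem selfadj (u : ℕ → ℂ) (hs : Summable (fun k => ‖u k‖ ^ 2))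
    (hrec : ∀ k : ℕ, (if k = 0 then (0 : ℂ) else (ja (k - 1) : ℂ) * u (k - 1))
            + (jb k : ℂ) * u k + (ja k : ℂ) * u (k + 1) = Complex.I * u k) : u = 0 := by
  obtain ⟨v, hv, -⟩ := twist_surj (fun k => (u k).re)
  obtain ⟨z, hz, -⟩ := twist_surj (fun k => (u k).im)
  have hre : ∀ k, (u k).re = twist v k := fun k => congr_fun hv k
  have him : ∀ k, (u k).im = twist z k := fun k => congr_fun hz k
  have h1 : ∀ k, jop 0 (twist v) k = -(twist z k) := by
    intro k
    have h := congr_arg Complex.re (hrec k)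
    rw [← him k]
    rw [← hv]
    unfold jop
    split_ifs at h ⊢ <;> simp at h ⊢ <;> linarith
  have h2 : ∀ k, jop 0 (twist z) k = twist v k := by
    intro k
    have h := congr_arg Complex.im (hrec k)
    rw [← hre k]
    rw [← hz]
    unfold jop
    split_ifs at h ⊢ <;> simp at h ⊢ <;> linarith
  have h3 : ∀ k, lap v k = -(mass k * z k) := by
    intro k
    have h := h1 k
    have hsk := (sm_pos k).ne'
    rw [jop_twist, twist] at h
    have h5 := neg_one_pow_mul_self k
    have h6 : ((-1 : ℝ) ^ k * (-1) ^ k) * (lap v k / sm k - 0 * (sm k * v k))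
        = -(((-1 : ℝ) ^ k * (-1) ^ k) * (sm k * z k)) := by
      rw [mul_assoc, h]; ring
    rw [h5] at h6
    rw [← sm_sq]
    field_simp at h6
    linarith
  have h4 : ∀ k, lap z k = mass k * v k := by
    intro k
    have h := h2 k
    have hsk := (sm_pos k).ne'
    rw [jop_twist, twist] at h
    have h5 := neg_one_pow_mul_self k
    have h6 : ((-1 : ℝ) ^ k * (-1) ^ k) * (lap z k / sm k - 0 * (sm k * z k))
        = (((-1 : ℝ) ^ k * (-1) ^ k) * (sm k * v k)) := by
      rw [mul_assoc, h]; ring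
    rw [h5] at h6
    rw [← sm_sq]
    field_simp at h6
    linarith
  -- monotonicity of `v² + z²`
  have hv0 : v 1 = 2 * v 0 + 2 * mass 0 * z 0 := by
    have := h3 0; simp [lap] at this; linarith
  have hz0 : z 1 = 2 * z 0 - 2 * mass 0 * v 0 := by
    have := h4 0; simp [lap] at this; linarith
  have hvs : ∀ k, v (k + 2) = 2 * v (k + 1) - v k + 2 * mass (k + 1) * z (k + 1) := by
    intro k
    have := h3 (k + 1); simp [lap] at this; linarith
  have hzs : ∀ k, z (k + 2) = 2 * z (k + 1) - z k - 2 * mass (k + 1) * v (k + 1) := by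
    intro k
    have := h4 (k + 1); simp [lap] at this; linarith
  have hmono : ∀ k, v k ^ 2 + z k ^ 2 ≤ v (k + 1) ^ 2 + z (k + 1) ^ 2 := by
    intro k
    induction k with
    | zero =>
      rw [zero_add, hv0, hz0]
      nlinarith [sq_nonneg (mass 0 * v 0), sq_nonneg (mass 0 * z 0), sq_nonneg (v 0),
        sq_nonneg (z 0)]
    | succ k ih =>
      rw [show k + 1 + 1 = k + 2 by ring]
      have e : v (k + 2) ^ 2 + z (k + 2) ^ 2 + (v k ^ 2 + z k ^ 2)
          - 2 * (v (k + 1) ^ 2 + z (k + 1) ^ 2)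
          = (v (k + 2) - v (k + 1)) ^ 2 + (v (k + 1) - v k) ^ 2
            + (z (k + 2) - z (k + 1)) ^ 2 + (z (k + 1) - z k) ^ 2 := by
        rw [hvs, hzs]; ring
      nlinarith [sq_nonneg (v (k + 2) - v (k + 1)), sq_nonneg (v (k + 1) - v k),
        sq_nonneg (z (k + 2) - z (k + 1)), sq_nonneg (z (k + 1) - z k)]
  have hge : ∀ k, v 0 ^ 2 + z 0 ^ 2 ≤ v k ^ 2 + z k ^ 2 := by
    intro k
    induction k with
    | zero => exact le_rfl
    | succ k ih => exact ih.trans (hmono k)
  have hnorm : ∀ k, ‖u k‖ ^ 2 = mass k * (v k ^ 2 + z k ^ 2) := by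
    intro k
    rw [norm_sq_re_im, hre, him, twist_sq, twist_sq]
    ring
  have hq0 : v 0 ^ 2 + z 0 ^ 2 = 0 := by
    by_contra hne
    have hpos : 0 < v 0 ^ 2 + z 0 ^ 2 := lt_of_le_of_ne (by positivity) (Ne.symm hne)
    apply mass_not_summable
    have h5 : Summable (fun k => mass k * (v 0 ^ 2 + z 0 ^ 2)) := by
      refine Summable.of_nonneg_of_le (fun k => mul_nonneg (mass_pos k).le hpos.le)
        (fun k => ?_) hs
      rw [hnorm]
      exact mul_le_mul_of_nonneg_left (hge k) (mass_pos k).le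
    exact (summable_mul_right_iff hpos.ne').mp h5
  have hv00 : v 0 = 0 := by nlinarith [sq_nonneg (v 0), sq_nonneg (z 0)]
  have hz00 : z 0 = 0 := by nlinarith [sq_nonneg (v 0), sq_nonneg (z 0)]
  have hall : ∀ k, (v k = 0 ∧ z k = 0) ∧ (v (k + 1) = 0 ∧ z (k + 1) = 0) := by
    intro k
    induction k with
    | zero =>
      refine ⟨⟨hv00, hz00⟩, ?_, ?_⟩
      · rw [zero_add, hv0, hv00, hz00]; ring
      · rw [zero_add, hz0, hv00, hz00]; ring
    | succ k ih =>
      refine ⟨ih.2, ?_, ?_⟩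
      · rw [show k + 1 + 1 = k + 2 by ring, hvs, ih.1.1, ih.2.1, ih.2.2]; ring
      · rw [show k + 1 + 1 = k + 2 by ring, hzs, ih.1.2, ih.2.1, ih.2.2]; ring
  funext k
  have h5 := hnorm k
  rw [(hall k).1.1, (hall k).1.2] at h5
  simpa using h5

/-- The essential spectrum, as in the frozen statement. -/
def essSet : Set ℝ :=
  {t : ℝ | ∀ ε : ℝ, 0 < ε → ∀ n : ℕ, ∃ V : Submodule ℂ (ℕ →₀ ℂ),
    Module.finrank ℂ V = n ∧ ∀ x ∈ V,
      ∑' k : ℕ, ‖(if k = 0 then (0 : ℂ) else (ja (k - 1) : ℂ) * x (k - 1))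
          + (jb k : ℂ) * x k + (ja k : ℂ) * x (k + 1) - (t : ℂ) * x k‖ ^ 2
        ≤ ε ^ 2 * ∑' k : ℕ, ‖x k‖ ^ 2}

theorem essSet_nonneg (t : ℝ) (ht : t ∈ essSet) : 0 ≤ t := by
  by_contra hneg
  push Not at hneg
  obtain ⟨V, hV, hx⟩ := ht (-t / 2) (by linarith) 1
  have hnt : Nontrivial V := Module.nontrivial_of_finrank_pos (R := ℂ) (by rw [hV]; norm_num)
  obtain ⟨⟨x, hxV⟩, hx0⟩ := exists_ne (0 : V)
  have hx0' : x ≠ 0 := fun h => hx0 (by ext; simp [h])
  have h1 := hx x hxV
  obtain ⟨N, hN⟩ := exists_bound x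
  have hpos := tsum_norm_sq_pos x hx0'
  rw [tsum_expr t x N hN] at h1
  have hre := real_lower_neg (fun k => (x k).re) N (fun k hk => by simp [hN k hk]) t hneg.le
  have him := real_lower_neg (fun k => (x k).im) N (fun k hk => by simp [hN k hk]) t hneg.le
  rw [tsum_norm_sq x N hN] at h1 hpos
  have ht2 : 0 < t ^ 2 := sq_pos_of_neg hneg
  nlinarith [mul_pos ht2 hpos]

theorem one_not_mem_essSet : (1 : ℝ) ∉ essSet := by
  intro ht
  obtain ⟨V, hV, hx⟩ := ht (1 / 4) (by norm_num) 129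
  have hfin : FiniteDimensional ℂ V := FiniteDimensional.of_finrank_pos (by rw [hV]; norm_num)
  -- a vector of `V` whose first 128 coordinates vanish
  let φ : V →ₗ[ℂ] (Fin 128 → ℂ) :=
    { toFun := fun x i => (x : ℕ →₀ ℂ) (i : ℕ)
      map_add' := fun x y => by funext i; simp
      map_smul' := fun c x => by funext i; simp }
  have hker : ∃ x : V, φ x = 0 ∧ x ≠ 0 := by
    by_contra hno
    push Not at hno
    have hinj : Function.Injective φ := by
      intro a b hab
      have h0 : φ (a - b) = 0 := by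
        funext i
        have := congr_fun hab i
        simp only [φ, LinearMap.coe_mk, AddHom.coe_mk] at this ⊢
        simp [this]
      exact sub_eq_zero.mp (hno _ h0)
    have hle := LinearMap.finrank_le_finrank_of_injective hinj
    rw [hV, Module.finrank_fin_fun] at hle
    omega
  obtain ⟨⟨x, hxV⟩, hxk, hx0⟩ := hker
  have hx0' : x ≠ 0 := fun h => hx0 (by ext; simp [h])
  have hlow : ∀ k, k < 128 → x k = 0 := by
    intro k hk
    have := congr_fun hxk ⟨k, hk⟩
    simpa [φ] using this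
  have h1 := hx x hxV
  obtain ⟨N0, hN0⟩ := exists_bound x
  have hN : ∀ k, 2 ^ N0 ≤ k → x k = 0 := by
    intro k hk
    apply hN0
    exact (Nat.lt_two_pow_self).le.trans hk
  have hpos := tsum_norm_sq_pos x hx0'
  rw [tsum_expr 1 x (2 ^ N0) hN] at h1
  have hre := real_lower_gap (fun k => (x k).re) N0 (fun k hk => by simp [hlow k hk])
    (fun k hk => by simp [hN k hk])
  have him := real_lower_gap (fun k => (x k).im) N0 (fun k hk => by simp [hlow k hk])
    (fun k hk => by simp [hN k hk])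
  rw [tsum_norm_sq x (2 ^ N0) hN] at h1 hpos
  nlinarith

theorem zero_mem_essSet : (0 : ℝ) ∈ essSet := by
  intro ε hε n
  obtain ⟨J, hJ3, hJ⟩ := real_upper n ε hε
  -- node sequence attached to a vector
  let cc : (Fin n → ℂ) → ℕ → ℂ := fun d j =>
    if h : J ≤ j ∧ j - J < n then d ⟨j - J, h.2⟩ else 0
  have hcc_add : ∀ d e j, cc (d + e) j = cc d j + cc e j := by
    intro d e j
    simp only [cc]
    split_ifs <;> simp
  have hcc_smul : ∀ (a : ℂ) d j, cc (a • d) j = a * cc d j := by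
    intro a d j
    simp only [cc]
    split_ifs <;> simp
  have hcc_low : ∀ d j, j < J → cc d j = 0 := by
    intro d j hj
    simp only [cc]
    rw [dif_neg]
    omega
  have hcc_high : ∀ d j, J + n ≤ j → cc d j = 0 := by
    intro d j hj
    simp only [cc]
    rw [dif_neg]
    omega
  let val : (Fin n → ℂ) → ℕ → ℂ := fun d k =>
    (((-1) ^ k * sm k : ℝ) : ℂ) * (cc d (Nat.log 2 k) +
      ((((k : ℝ) - 2 ^ Nat.log 2 k) / 2 ^ Nat.log 2 k : ℝ) : ℂ)
        * (cc d (Nat.log 2 k + 1) - cc d (Nat.log 2 k)))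
  have hval_zero : ∀ d k, 2 ^ (J + n) ≤ k → val d k = 0 := by
    intro d k hk
    have h1 : J + n ≤ Nat.log 2 k := Nat.le_log_of_pow_le (by norm_num) hk
    simp only [val]
    rw [hcc_high d _ h1, hcc_high d _ (by omega : J + n ≤ Nat.log 2 k + 1)]
    simp
  have hre : ∀ d k, (val d k).re = twist (pl (fun j => (cc d j).re)) k := by
    intro d k
    simp only [val, twist, pl]
    rw [Complex.re_ofReal_mul, Complex.add_re, Complex.re_ofReal_mul, Complex.sub_re]
  have him : ∀ d k, (val d k).im = twist (pl (fun j => (cc d j).im)) k := by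
    intro d k
    simp only [val, twist, pl]
    rw [Complex.im_ofReal_mul, Complex.add_im, Complex.im_ofReal_mul, Complex.sub_im]
  let Φ : (Fin n → ℂ) →ₗ[ℂ] (ℕ →₀ ℂ) :=
    { toFun := fun d => Finsupp.onFinset (range (2 ^ (J + n))) (val d) (fun k hk => by
        rw [mem_range]
        by_contra hc
        exact hk (hval_zero d k (by omega)))
      map_add' := fun d e => by
        ext k
        simp only [Finsupp.onFinset_apply, Finsupp.add_apply, val, hcc_add]
        ring
      map_smul' := fun a d => by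
        ext k
        simp only [Finsupp.onFinset_apply, Finsupp.smul_apply, val, hcc_smul, RingHom.id_apply,
          smul_eq_mul]
        ring }
  have hΦ : ∀ d k, Φ d k = val d k := fun d k => rfl
  have hinj : Function.Injective Φ := by
    rw [← LinearMap.ker_eq_bot, LinearMap.ker_eq_bot']
    intro d hd
    funext i
    have h1 : val d (2 ^ (J + i)) = 0 := by
      rw [← hΦ, hd]; rfl
    simp only [val, Nat.log_pow (by norm_num : 1 < 2)] at h1
    have h2 : (((2 ^ (J + (i : ℕ)) : ℕ) : ℝ) - 2 ^ (J + (i : ℕ))) / 2 ^ (J + (i : ℕ)) = 0 := by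
      push_cast
      simp
    rw [h2] at h1
    simp only [Complex.ofReal_zero, zero_mul, add_zero] at h1
    rcases mul_eq_zero.mp h1 with h3 | h3
    · exfalso
      have h4 := (sm_pos (2 ^ (J + (i : ℕ)))).ne'
      have h5 : ((-1 : ℝ) ^ (2 ^ (J + (i : ℕ)))) ≠ 0 := pow_ne_zero _ (by norm_num)
      exact (mul_ne_zero h5 h4) (Complex.ofReal_eq_zero.mp h3)
    · simp only [cc] at h3
      rw [dif_pos ⟨by omega, by have := i.2; omega⟩] at h3
      have h6 : (⟨J + (i : ℕ) - J, by have := i.2; omega⟩ : Fin n) = i := by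
        ext; simp
      rw [h6] at h3
      simpa using h3
  refine ⟨LinearMap.range Φ, ?_, ?_⟩
  · rw [LinearMap.finrank_range_of_inj hinj, Module.finrank_fin_fun]
  · rintro _ ⟨d, rfl⟩
    have hz : ∀ k, 2 ^ (J + n) ≤ k → Φ d k = 0 := fun k hk => hval_zero d k hk
    rw [tsum_expr 0 (Φ d) _ hz, tsum_norm_sq (Φ d) _ hz]
    have e1 : (fun k => (Φ d k).re) = twist (pl (fun j => (cc d j).re)) := by
      funext k; rw [hΦ, hre]
    have e2 : (fun k => (Φ d k).im) = twist (pl (fun j => (cc d j).im)) := by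
      funext k; rw [hΦ, him]
    have b1 := hJ (fun j => (cc d j).re) (fun j hj => by simp [hcc_low d j hj])
      (fun j hj => by simp [hcc_high d j hj])
    have b2 := hJ (fun j => (cc d j).im) (fun j hj => by simp [hcc_low d j hj])
      (fun j hj => by simp [hcc_high d j hj])
    rw [e1, e2]
    have e3 : ∑ k ∈ range (2 ^ (J + n) + 1), (Φ d k).re ^ 2
        = ∑ k ∈ range (2 ^ (J + n) + 1), twist (pl (fun j => (cc d j).re)) k ^ 2 :=
      sum_congr rfl fun k _ => by rw [hΦ, hre]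
    have e4 : ∑ k ∈ range (2 ^ (J + n) + 1), (Φ d k).im ^ 2
        = ∑ k ∈ range (2 ^ (J + n) + 1), twist (pl (fun j => (cc d j).im)) k ^ 2 :=
      sum_congr rfl fun k _ => by rw [hΦ, him]
    rw [e3, e4, mul_add]
    exact add_le_add b1 b2

end Pool.Agent.H46
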