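import Mathlib

set_option autoImplicit false

namespace Pool.Agent.H46

open NumberField IntermediateField Module

variable (K : Type*) [Field K] [NumberField K]

/-- Number of extensions of an embedding. -/
theorem fiber_card (k : IntermediateField ℚ K) [DecidableEq (k →+* ℂ)] (θ : k →+* ℂ) :
    (Finset.univ.filter (fun φ : K →+* ℂ => φ.comp (algebraMap k K) = θ)).card = finrank k K := by
  classical
  let _ : Algebra k ℂ := θ.toAlgebra
  have h1 : Fintype.card (K →ₐ[k] ℂ) = finrank k K := AlgHom.card k K ℂ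
  rw [← h1, ← Fintype.card_subtype]
  apply Fintype.card_congr
  exact
    { toFun := fun φ =>
        { toRingHom := φ.1
          commutes' := fun x => by
            have := RingHom.congr_fun φ.2 x
            exact this }
      invFun := fun f => ⟨f.toRingHom, by
        ext x
        exact f.commutes x⟩
      left_inv := fun φ => rfl
      right_inv := fun f => rfl }

theorem not_coprime_of_collision (u : K) (S : Finset (K →+* ℂ))
    (hS : ∀ φ ψ : K →+* ℂ, φ u = ψ u → φ ∈ S → ψ ∈ S) (σ τ : K →+* ℂ) (hne : σ ≠ τ)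
    (h : σ u = τ u) : ¬ Nat.Coprime S.card (finrank ℚ K) := by
  classical
  intro hcop
  let k : IntermediateField ℚ K := ℚ⟮u⟯
  let r : (K →+* ℂ) → (k →+* ℂ) := fun φ => φ.comp (algebraMap k K)
  have hr : ∀ φ ψ : K →+* ℂ, φ u = ψ u → r φ = r ψ := by
    intro φ ψ h
    have h1 : (r φ).toRatAlgHom = (r ψ).toRatAlgHom := by
      apply IntermediateField.adjoin_algHom_ext
      intro x hx
      rw [Set.mem_singleton_iff] at hx
      subst hx
      exact h
    ext x
    exact AlgHom.congr_fun h1 x
  have hr' : ∀ φ ψ : K →+* ℂ, r φ = r ψ → φ u = ψ u := by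
    intro φ ψ h
    exact RingHom.congr_fun h ⟨u, IntermediateField.mem_adjoin_simple_self ℚ u⟩
  have hdvd1 : finrank k K ∣ S.card := by
    rw [Finset.card_eq_sum_card_image r S]
    apply Finset.dvd_sum
    intro θ hθ
    obtain ⟨φ0, hφ0, rfl⟩ := Finset.mem_image.mp hθ
    have : S.filter (fun φ => r φ = r φ0) = Finset.univ.filter (fun φ => r φ = r φ0) := by
      ext φ
      simp only [Finset.mem_filter, Finset.mem_univ, true_and, and_iff_right_iff_imp]
      intro h2
      exact hS φ0 φ (hr' _ _ h2.symm) hφ0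
    rw [this]
    exact (fiber_card K k (r φ0)).symm.dvd
  have hdvd2 : finrank k K ∣ finrank ℚ K := ⟨finrank ℚ k, by
    rw [mul_comm]; exact (finrank_mul_finrank ℚ k K).symm⟩
  have hone : finrank k K = 1 := Nat.eq_one_of_dvd_coprimes hcop hdvd1 hdvd2
  have hc := fiber_card K k (r σ)
  rw [hone, Finset.card_eq_one] at hc
  obtain ⟨ρ, hρ⟩ := hc
  have h1 : σ ∈ Finset.univ.filter (fun φ : K →+* ℂ => φ.comp (algebraMap k K) = r σ) := by
    simp [r]
  have h2 : τ ∈ Finset.univ.filter (fun φ : K →+* ℂ => φ.comp (algebraMap k K) = r σ) := by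
    simp only [Finset.mem_filter, Finset.mem_univ, true_and]
    exact (hr σ τ h).symm
  rw [hρ, Finset.mem_singleton] at h1 h2
  exact hne (h1.trans h2.symm)

end Pool.Agent.H46
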