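import Mathlib

set_option autoImplicit false

namespace Pool.Agent.H46

open NumberField

variable (K : Type*) [Field K] [NumberField K]

/-- Complex embeddings are linearly independent already on the ring of integers. -/
theorem indep_integers (c : (K →+* ℂ) → ℂ)
    (h : ∀ a : 𝓞 K, ∑ σ : K →+* ℂ, c σ * σ (a : K) = 0) : c = 0 := by
  classical
  let f : (K →+* ℂ) → ((𝓞 K) →* ℂ) := fun σ => (σ.comp (algebraMap (𝓞 K) K) : (𝓞 K) →+* ℂ)
  have hf : Function.Injective f := by
    intro σ τ hst
    ext x
    obtain ⟨a, b, hb, rfl⟩ := IsFractionRing.div_surjective (A := 𝓞 K) x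
    have h1 : σ (algebraMap (𝓞 K) K a) = τ (algebraMap (𝓞 K) K a) := DFunLike.congr_fun hst a
    have h2 : σ (algebraMap (𝓞 K) K b) = τ (algebraMap (𝓞 K) K b) := DFunLike.congr_fun hst b
    rw [map_div₀, map_div₀, h1, h2]
  have hli := (linearIndependent_monoidHom (𝓞 K) ℂ).comp f hf
  rw [Fintype.linearIndependent_iff] at hli
  funext σ
  apply hli c
  funext a
  have := h a
  simpa [f] using this

/-- Real valued combinations of embeddings have conjugation symmetric coefficients. -/
theorem coeff_conj (c : (K →+* ℂ) → ℂ)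
    (h : ∀ a : 𝓞 K, (∑ σ : K →+* ℂ, c σ * σ (a : K)).im = 0) (σ : K →+* ℂ) :
    c (ComplexEmbedding.conjugate σ) = (starRingEnd ℂ) (c σ) := by
  classical
  have hinv : Function.Involutive (ComplexEmbedding.conjugate : (K →+* ℂ) → (K →+* ℂ)) :=
    fun φ => ComplexEmbedding.involutive_conjugate K φ
  have key : (fun σ => c σ - (starRingEnd ℂ) (c (ComplexEmbedding.conjugate σ))) = 0 := by
    apply indep_integers K
    intro a
    simp only [sub_mul, Finset.sum_sub_distrib]
    rw [sub_eq_zero]
    have h1 : ∑ σ : K →+* ℂ, (starRingEnd ℂ) (c (ComplexEmbedding.conjugate σ)) * σ (a : K)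
        = (starRingEnd ℂ) (∑ σ : K →+* ℂ, c σ * σ (a : K)) := by
      rw [map_sum]
      rw [← Equiv.sum_comp hinv.toPerm]
      apply Finset.sum_congr rfl
      intro σ _
      rw [map_mul]
      simp only [Function.Involutive.coe_toPerm, hinv σ]
      rw [ComplexEmbedding.conjugate_coe_eq]
    rw [h1, Complex.conj_eq_iff_im.mpr (h a)]
  have h2 := congr_fun key (ComplexEmbedding.conjugate σ)
  simp only [Pi.zero_apply, hinv σ] at h2
  exact sub_eq_zero.mp h2

/-- Conversely symmetric coefficients give real values. -/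
theorem real_of_coeff_conj (c : (K →+* ℂ) → ℂ)
    (h : ∀ σ : K →+* ℂ, c (ComplexEmbedding.conjugate σ) = (starRingEnd ℂ) (c σ)) (x : K) :
    (∑ σ : K →+* ℂ, c σ * σ x).im = 0 := by
  classical
  have hinv : Function.Involutive (ComplexEmbedding.conjugate : (K →+* ℂ) → (K →+* ℂ)) :=
    fun φ => ComplexEmbedding.involutive_conjugate K φ
  rw [← Complex.conj_eq_iff_im, map_sum, ← Equiv.sum_comp hinv.toPerm]
  apply Finset.sum_congr rfl
  intro σ _
  rw [map_mul]
  simp only [Function.Involutive.coe_toPerm]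
  rw [h σ, ComplexEmbedding.conjugate_coe_eq]
  simp

end Pool.Agent.H46
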