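import Mathlib

set_option autoImplicit false

namespace Pool.Agent.H46

open Filter Topology

variable {E : Type*} [NormedAddCommGroup E] [NormedSpace ℝ E]

/-- The largest real subspace contained in a closed additive subgroup. -/
def lineSpace (D : AddSubgroup E) : Submodule ℝ E where
  carrier := {v | ∀ t : ℝ, t • v ∈ D}
  add_mem' := by
    intro a b ha hb t
    rw [smul_add]
    exact D.add_mem (ha t) (hb t)
  zero_mem' := by
    intro t
    rw [smul_zero]
    exact D.zero_mem
  smul_mem' := by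
    intro c x hx t
    rw [smul_smul]
    exact hx (t * c)

theorem mem_lineSpace (D : AddSubgroup E) (v : E) :
    v ∈ lineSpace D ↔ ∀ t : ℝ, t • v ∈ D := Iff.rfl

theorem lineSpace_le (D : AddSubgroup E) {v : E} (hv : v ∈ lineSpace D) : v ∈ D := by
  have := hv 1
  rwa [one_smul] at this

/-- If unit multiples of small elements of a closed subgroup accumulate at `w`, then the whole line
through `w` is in the subgroup. -/
theorem line_of_limit (D : AddSubgroup E) (hD : IsClosed (D : Set E)) (w : ℕ → E)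
    (hwD : ∀ n, w n ∈ D) (hw0 : ∀ n, w n ≠ 0) (hw : Tendsto w atTop (𝓝 0)) (v : E)
    (hv : Tendsto (fun n => (‖w n‖)⁻¹ • w n) atTop (𝓝 v)) : v ∈ lineSpace D := by
  intro t
  have hnorm : Tendsto (fun n => ‖w n‖) atTop (𝓝 0) := by
    simpa using hw.norm
  have hpos : ∀ n, 0 < ‖w n‖ := fun n => norm_pos_iff.mpr (hw0 n)
  -- integers `k n` with `k n * ‖w n‖ → t`
  have hk : Tendsto (fun n => ((⌊t / ‖w n‖⌋ : ℤ) : ℝ) * ‖w n‖) atTop (𝓝 t) := by
    have h1 : ∀ n, t - ‖w n‖ ≤ ((⌊t / ‖w n‖⌋ : ℤ) : ℝ) * ‖w n‖ := by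
      intro n
      have h := (Int.sub_one_lt_floor (t / ‖w n‖)).le
      have h2 := mul_le_mul_of_nonneg_right h (hpos n).le
      have h3 : (t / ‖w n‖ - 1) * ‖w n‖ = t - ‖w n‖ := by
        have := (hpos n).ne'
        field_simp
      linarith
    have h2 : ∀ n, ((⌊t / ‖w n‖⌋ : ℤ) : ℝ) * ‖w n‖ ≤ t := by
      intro n
      have h := Int.floor_le (t / ‖w n‖)
      have h2 := mul_le_mul_of_nonneg_right h (hpos n).le
      have h3 : (t / ‖w n‖) * ‖w n‖ = t := by
        have := (hpos n).ne'
        field_simp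
      linarith
    have h3 : Tendsto (fun n => t - ‖w n‖) atTop (𝓝 t) := by
      simpa using tendsto_const_nhds.sub hnorm
    exact tendsto_of_tendsto_of_tendsto_of_le_of_le h3 tendsto_const_nhds h1 h2
  have hlim : Tendsto (fun n => (⌊t / ‖w n‖⌋ : ℤ) • w n) atTop (𝓝 (t • v)) := by
    have h4 := hk.smul hv
    refine h4.congr fun n => ?_
    rw [smul_smul, mul_assoc, mul_inv_cancel₀ (hpos n).ne', mul_one]
    exact Int.cast_smul_eq_zsmul ℝ _ _
  exact hD.mem_of_tendsto hlim (Eventually.of_forall fun n => D.zsmul_mem (hwD n) _)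

/-- Small elements of a closed subgroup of a finite dimensional space lie on lines contained in the
subgroup. -/
theorem closed_small [FiniteDimensional ℝ E] (D : AddSubgroup E) (hD : IsClosed (D : Set E)) :
    ∃ δ > 0, ∀ y ∈ D, ‖y‖ < δ → ∀ t : ℝ, t • y ∈ D := by
  classical
  by_contra hcon
  push Not at hcon
  obtain ⟨W, hW⟩ := Submodule.exists_isCompl (lineSpace D)
  -- projection onto `W` along `lineSpace D`
  let P0 : E →ₗ[ℝ] W := W.projectionOnto (lineSpace D) hW.symm
  let P : E →ₗ[ℝ] E := W.subtype ∘ₗ P0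
  have hPc : Continuous P := LinearMap.continuous_of_finiteDimensional P
  have hP0 : ∀ y, P y = ((P0 y : W) : E) := fun y => rfl
  have hPW : ∀ y, P y ∈ W := fun y => by rw [hP0]; exact (P0 y).2
  have hPV : ∀ y, y - P y ∈ lineSpace D := by
    intro y
    have h1 := (Submodule.projectionOnto_apply_eq_zero_iff hW.symm (x := y - P y)).mp ?_
    · exact h1
    · rw [map_sub]
      have h2 : W.projectionOnto (lineSpace D) hW.symm (P y)
          = W.projectionOnto (lineSpace D) hW.symm y := by
        rw [hP0]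
        exact Submodule.projectionOnto_apply_left hW.symm (P0 y)
      rw [h2, sub_self]
  have hseq : ∀ n : ℕ, ∃ y ∈ D, ‖y‖ < 1 / ((n : ℝ) + 1) ∧ y ∉ lineSpace D := by
    intro n
    obtain ⟨y, hyD, hy, t, ht⟩ := hcon (1 / ((n : ℝ) + 1)) (by positivity)
    exact ⟨y, hyD, hy, fun h => ht (h t)⟩
  choose y hyD hy hyV using hseq
  have hy0 : Tendsto y atTop (𝓝 0) := by
    rw [tendsto_zero_iff_norm_tendsto_zero]
    exact squeeze_zero (fun n => norm_nonneg _) (fun n => (hy n).le)
      tendsto_one_div_add_atTop_nhds_zero_nat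
  let w : ℕ → E := fun n => P (y n)
  have hw : Tendsto w atTop (𝓝 0) := by
    have := (hPc.tendsto 0).comp hy0
    simpa [w, Function.comp_def] using this
  have hwD : ∀ n, w n ∈ D := by
    intro n
    have h1 := lineSpace_le D (hPV (y n))
    have h2 := D.sub_mem (hyD n) h1
    simpa [w] using h2
  have hw0 : ∀ n, w n ≠ 0 := by
    intro n h
    apply hyV n
    have h1 := hPV (y n)
    rw [show P (y n) = w n from rfl, h, sub_zero] at h1
    exact h1
  -- unit vectors
  have hsph : ∀ n, (‖w n‖)⁻¹ • w n ∈ Metric.sphere (0 : E) 1 := by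
    intro n
    rw [mem_sphere_zero_iff_norm, norm_smul, norm_inv, norm_norm]
    exact inv_mul_cancel₀ (norm_ne_zero_iff.mpr (hw0 n))
  have : ProperSpace E := FiniteDimensional.proper ℝ E
  obtain ⟨v, hvs, φ, hφ, hlim⟩ := (isCompact_sphere (0 : E) 1).tendsto_subseq hsph
  have hvV : v ∈ lineSpace D :=
    line_of_limit D hD (w ∘ φ) (fun n => hwD _) (fun n => hw0 _)
      (hw.comp hφ.tendsto_atTop) v hlim
  have hvW : v ∈ W := by
    have hWc : IsClosed (W : Set E) := W.closed_of_finiteDimensional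
    exact hWc.mem_of_tendsto hlim (Eventually.of_forall fun n => W.smul_mem _ (hPW _))
  have hv0 : v = 0 := by
    have := hW.disjoint
    rw [Submodule.disjoint_def] at this
    exact this v hvV hvW
  rw [hv0] at hvs
  simp at hvs

end Pool.Agent.H46
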