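import Mathlib
import Pool.Agent.H46.ClosedSubgroup

set_option autoImplicit false

namespace Pool.Agent.H46

open Filter Topology

/-- A subring of `ℂ^ι` which contains arbitrarily small elements without zero coordinates is dense in
its real span. -/
theorem dense_of_small {ι A : Type*} [Fintype ι] [CommRing A] (j : A →+* (ι → ℂ))
    (hsmall : ∀ ε > 0, ∃ a : A, (∀ i, j a i ≠ 0) ∧ ‖j a‖ < ε) (z : ι → ℂ)
    (hz : z ∈ Submodule.span ℝ (Set.range j)) : z ∈ closure (Set.range j) := by
  classical
  let Y : AddSubgroup (ι → ℂ) := (j.toAddMonoidHom.range).topologicalClosure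
  have hYc : IsClosed (Y : Set (ι → ℂ)) := AddSubgroup.isClosed_topologicalClosure _
  have hYmem : ∀ v, v ∈ Y ↔ v ∈ closure (Set.range j) := by
    intro v
    rfl
  obtain ⟨δ, hδ, hline⟩ := closed_small Y hYc
  obtain ⟨a, ha0, ha⟩ := hsmall δ hδ
  have haY : j a ∈ Y := (hYmem _).mpr (subset_closure ⟨a, rfl⟩)
  have haV : j a ∈ lineSpace Y := hline _ haY ha
  have hmul : ∀ (b : A) (v : ι → ℂ), v ∈ Y → j b * v ∈ Y := by
    intro b v hv
    rw [hYmem] at hv ⊢
    have hc : Continuous (fun v : ι → ℂ => j b * v) := continuous_const.mul continuous_id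
    refine map_mem_closure hc hv ?_
    rintro _ ⟨c, rfl⟩
    exact ⟨b * c, by simp⟩
  have hmulV : ∀ (b : A) (v : ι → ℂ), v ∈ lineSpace Y → j b * v ∈ lineSpace Y := by
    intro b v hv t
    have h1 := hmul b (t • v) (hv t)
    rwa [mul_smul_comm] at h1
  have hspanV : ∀ z ∈ Submodule.span ℝ (Set.range j), z * j a ∈ lineSpace Y := by
    intro z hz
    induction hz using Submodule.span_induction with
    | mem x hx =>
      obtain ⟨b, rfl⟩ := hx
      exact hmulV b _ haV
    | zero => rw [zero_mul]; exact Submodule.zero_mem _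
    | add x y _ _ hx hy => rw [add_mul]; exact Submodule.add_mem _ hx hy
    | smul c x _ hx => rw [smul_mul_assoc]; exact Submodule.smul_mem _ c hx
  have hspanS : ∀ z ∈ Submodule.span ℝ (Set.range j), z * j a ∈ Submodule.span ℝ (Set.range j) := by
    intro z hz
    induction hz using Submodule.span_induction with
    | mem x hx =>
      obtain ⟨b, rfl⟩ := hx
      rw [← map_mul]
      exact Submodule.subset_span ⟨_, rfl⟩
    | zero => rw [zero_mul]; exact Submodule.zero_mem _
    | add x y _ _ hx hy => rw [add_mul]; exact Submodule.add_mem _ hx hy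
    | smul c x _ hx => rw [smul_mul_assoc]; exact Submodule.smul_mem _ c hx
  let S := Submodule.span ℝ (Set.range j)
  let m : S →ₗ[ℝ] S :=
    { toFun := fun z => ⟨z.1 * j a, hspanS z.1 z.2⟩
      map_add' := fun x y => by ext i; simp [add_mul]
      map_smul' := fun c x => by ext i; simp [mul_assoc] }
  have hminj : Function.Injective m := by
    intro x y hxy
    have h1 : x.1 * j a = y.1 * j a := congr_arg Subtype.val hxy
    apply Subtype.ext
    funext i
    have h2 := congr_fun h1 i
    simp only [Pi.mul_apply] at h2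
    exact mul_right_cancel₀ (ha0 i) h2
  have hmsurj : Function.Surjective m := LinearMap.surjective_of_injective hminj
  obtain ⟨x, hx⟩ := hmsurj ⟨z, hz⟩
  have h1 : x.1 * j a = z := congr_arg Subtype.val hx
  rw [← hYmem, ← h1]
  exact lineSpace_le Y (hspanV x.1 x.2)

end Pool.Agent.H46
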