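import Mathlib
import Pool.Agent.H46.Dense

set_option autoImplicit false

namespace Pool.Agent.H46

open Filter Topology

theorem sign_arg {ι A : Type*} [Fintype ι] [CommRing A] [Nontrivial A] (j : A →+* (ι → ℂ))
    (hsmall : ∀ ε > 0, ∃ a : A, (∀ i, j a i ≠ 0) ∧ ‖j a‖ < ε) (b y : ι → ℂ)
    (hreal : ∀ (t : ℝ) (a : A), (∑ i, b i * (Complex.exp (t * y i) * j a i)).im = 0)
    (hne : ∀ (t : ℝ) (a : A), a ≠ 0 → ∑ i, b i * (Complex.exp (t * y i) * j a i) ≠ 0)
    (hindep : ∀ c : ι → ℂ, (∀ a : A, ∑ i, c i * j a i = 0) → c = 0) (s t : ι)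
    (hs : b s ≠ 0) (ht : b t ≠ 0) : Complex.exp (y s) = Complex.exp (y t) := by
  classical
  -- the two real functionals
  let L : (ι → ℂ) →ₗ[ℝ] ℝ :=
    { toFun := fun z => (∑ i, b i * z i).re
      map_add' := fun u v => by
        simp only [Pi.add_apply, mul_add, Finset.sum_add_distrib, Complex.add_re]
      map_smul' := fun r u => by
        simp only [Pi.smul_apply, RingHom.id_apply, smul_eq_mul]
        have : ∑ i, b i * (r • u i) = (r : ℂ) * ∑ i, b i * u i := by
          rw [Finset.mul_sum]
          apply Finset.sum_congr rfl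
          intro i _
          rw [Complex.real_smul]
          ring
        rw [this, Complex.re_ofReal_mul] }
  let M : (ι → ℂ) →ₗ[ℝ] ℝ :=
    { toFun := fun z => (∑ i, b i * (Complex.exp (y i) * z i)).re
      map_add' := fun u v => by
        simp only [Pi.add_apply, mul_add, Finset.sum_add_distrib, Complex.add_re]
      map_smul' := fun r u => by
        simp only [Pi.smul_apply, RingHom.id_apply, smul_eq_mul]
        have : ∑ i, b i * (Complex.exp (y i) * (r • u i))
            = (r : ℂ) * ∑ i, b i * (Complex.exp (y i) * u i) := by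
          rw [Finset.mul_sum]
          apply Finset.sum_congr rfl
          intro i _
          rw [Complex.real_smul]
          ring
        rw [this, Complex.re_ofReal_mul] }
  have hL : ∀ z, L z = (∑ i, b i * z i).re := fun z => rfl
  have hM : ∀ z, M z = (∑ i, b i * (Complex.exp (y i) * z i)).re := fun z => rfl
  have hLc : Continuous L := LinearMap.continuous_of_finiteDimensional L
  have hMc : Continuous M := LinearMap.continuous_of_finiteDimensional M
  -- constant sign
  have hsign : ∀ a : A, a ≠ 0 → 0 < L (j a) * M (j a) := by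
    intro a ha
    let f : ℝ → ℝ := fun t => (∑ i, b i * (Complex.exp (t * y i) * j a i)).re
    have hfc : Continuous f := by
      simp only [f]
      fun_prop
    have hf0 : ∀ t, f t ≠ 0 := by
      intro t h0
      exact hne t a ha (Complex.ext h0 (hreal t a))
    have e0 : f 0 = L (j a) := by simp [f, hL]
    have e1 : f 1 = M (j a) := by simp [f, hM]
    rw [← e0, ← e1]
    by_contra hcon
    push Not at hcon
    have h01 : (0 : ℝ) ∈ Set.uIcc (f 0) (f 1) := by
      rw [Set.mem_uIcc]
      rcases lt_or_gt_of_ne (hf0 0) with h | h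
      · left
        refine ⟨h.le, ?_⟩
        by_contra h2
        push Not at h2
        have := mul_pos_of_neg_of_neg h h2
        linarith
      · right
        refine ⟨?_, h.le⟩
        by_contra h2
        push Not at h2
        have := mul_pos h h2
        linarith
    obtain ⟨t, -, ht⟩ := intermediate_value_uIcc hfc.continuousOn h01
    exact hf0 t ht
  have hsign0 : ∀ z ∈ Submodule.span ℝ (Set.range j), 0 ≤ L z * M z := by
    intro z hz
    have h1 := dense_of_small j hsmall z hz
    have hclosed : IsClosed {z : ι → ℂ | 0 ≤ L z * M z} :=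
      isClosed_le continuous_const (hLc.mul hMc)
    have hsub : Set.range j ⊆ {z : ι → ℂ | 0 ≤ L z * M z} := by
      rintro _ ⟨a, rfl⟩
      by_cases ha : a = 0
      · simp [ha]
      · exact (hsign a ha).le
    exact closure_minimal hsub hclosed h1
  have h11 := hsign 1 one_ne_zero
  set L1 := L (j 1) with hL1
  set M1 := M (j 1) with hM1
  have hL1ne : L1 ≠ 0 := fun h => by rw [h, zero_mul] at h11; exact lt_irrefl _ h11
  have hM1ne : M1 ≠ 0 := fun h => by rw [h, mul_zero] at h11; exact lt_irrefl _ h11
  have hprop : ∀ a : A, M (j a) = M1 / L1 * L (j a) := by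
    intro a
    set z : ι → ℂ := j a - (L (j a) / L1) • j 1 with hz
    have hzS : z ∈ Submodule.span ℝ (Set.range j) := by
      apply Submodule.sub_mem _ (Submodule.subset_span (Set.mem_range_self a))
      exact Submodule.smul_mem _ _ (Submodule.subset_span (Set.mem_range_self (1 : A)))
    have hLz : L z = 0 := by
      rw [hz, map_sub, map_smul, smul_eq_mul, ← hL1]
      field_simp
      ring
    have hMz : M z = M (j a) - L (j a) / L1 * M1 := by
      rw [hz, map_sub, map_smul, smul_eq_mul, ← hM1]
    have hkey : M z = 0 := by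
      by_contra hne0
      have h2 := hsign0 (z + (-(M z / (2 * M1))) • j 1)
        (Submodule.add_mem _ hzS (Submodule.smul_mem _ _ (Submodule.subset_span (Set.mem_range_self (1 : A)))))
      rw [map_add, map_add, map_smul, map_smul, hLz, smul_eq_mul, smul_eq_mul, ← hL1, ← hM1] at h2
      have h3 : (0 + -(M z / (2 * M1)) * L1) * (M z + -(M z / (2 * M1)) * M1)
          = -((M z) ^ 2 * (L1 * M1) / (4 * M1 ^ 2)) := by
        field_simp
        ring
      rw [h3] at h2
      have h4 : 0 < (M z) ^ 2 * (L1 * M1) / (4 * M1 ^ 2) := by positivity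
      linarith
    rw [hMz] at hkey
    field_simp at hkey ⊢
    linarith
  have hzero : (fun i => b i * (Complex.exp (y i) - ((M1 / L1 : ℝ) : ℂ))) = 0 := by
    apply hindep
    intro a
    have h5 : ∑ i, b i * (Complex.exp (y i) - ((M1 / L1 : ℝ) : ℂ)) * j a i
        = ∑ i, b i * (Complex.exp (y i) * j a i) - ((M1 / L1 : ℝ) : ℂ) * ∑ i, b i * j a i := by
      rw [Finset.mul_sum, ← Finset.sum_sub_distrib]
      apply Finset.sum_congr rfl
      intro i _
      ring
    rw [h5]
    have r0 := hreal 0 a
    have r1 := hreal 1 a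
    simp only [Complex.ofReal_zero, zero_mul, Complex.exp_zero, one_mul, Complex.ofReal_one] at r0 r1
    apply Complex.ext
    · rw [Complex.sub_re, Complex.re_ofReal_mul, ← hM, ← hL, hprop a]
      simp
    · rw [Complex.sub_im, Complex.im_ofReal_mul, r0, r1]
      simp
  have hs0 := congr_fun hzero s
  have ht0 := congr_fun hzero t
  simp only [Pi.zero_apply, mul_eq_zero, hs, ht, false_or] at hs0 ht0
  rw [sub_eq_zero] at hs0 ht0
  rw [hs0, ht0]

end Pool.Agent.H46
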