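import Mathlib
import Pool.Agent.H46.UnitsNear

set_option autoImplicit false

namespace Pool.Agent.H46

open Filter Topology NumberField

variable (K : Type*) [Field K] [NumberField K]

/-- Recurrence: some unit is close to `exp (s w)` for arbitrarily large `s`. -/
theorem units_recur (w : (K →+* ℂ) → ℝ)
    (hconj : ∀ φ, w (ComplexEmbedding.conjugate φ) = w φ) (hsum : ∑ φ, w φ = 0)
    (ε : ℝ) (hε : 0 < ε) (R : ℝ) :
    ∃ s : ℝ, R ≤ s ∧ ∃ u : (𝓞 K)ˣ, ∀ φ : K →+* ℂ,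
      ‖φ ((u : 𝓞 K) : K) * Complex.exp (-((s * w φ : ℝ) : ℂ)) - 1‖ < ε := by
  classical
  obtain ⟨C, hC⟩ := units_near K w hconj hsum
  choose u hu using fun n : ℕ => hC (n : ℝ)
  let x : ℕ → ((K →+* ℂ) → ℂ) := fun n φ =>
    φ ((u n : 𝓞 K) : K) * Complex.exp (-(((n : ℝ) * w φ : ℝ) : ℂ))
  have hpos : ∀ (n : ℕ) (φ : K →+* ℂ), 0 < ‖φ ((u n : 𝓞 K) : K)‖ := by
    intro n φ
    rw [norm_pos_iff]
    simp
  have hnorm : ∀ n φ, ‖x n φ‖ = Real.exp (Real.log ‖φ ((u n : 𝓞 K) : K)‖ - n * w φ) := by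
    intro n φ
    simp only [x]
    rw [norm_mul, Complex.norm_exp, Real.exp_sub, Real.exp_log (hpos n φ), Complex.neg_re,
      Complex.ofReal_re, Real.exp_neg]
    rfl
  have hup : ∀ n φ, ‖x n φ‖ ≤ Real.exp C := by
    intro n φ
    rw [hnorm]
    exact Real.exp_le_exp.mpr (abs_le.mp (hu n φ)).2
  have hlow : ∀ n φ, Real.exp (-C) ≤ ‖x n φ‖ := by
    intro n φ
    rw [hnorm]
    exact Real.exp_le_exp.mpr (abs_le.mp (hu n φ)).1
  have hball : ∀ n, x n ∈ Metric.closedBall (0 : (K →+* ℂ) → ℂ) (Real.exp C) := by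
    intro n
    rw [mem_closedBall_zero_iff, pi_norm_le_iff_of_nonneg (Real.exp_pos C).le]
    exact hup n
  obtain ⟨y, -, ψ, hψ, hlim⟩ := (isCompact_closedBall (0 : (K →+* ℂ) → ℂ) (Real.exp C)).tendsto_subseq hball
  have hcauchy := hlim.cauchySeq
  rw [Metric.cauchySeq_iff] at hcauchy
  obtain ⟨N, hN⟩ := hcauchy (ε * Real.exp (-C)) (by positivity)
  -- a later index
  obtain ⟨M, hM⟩ := exists_nat_ge R
  have hm : ∃ m, N ≤ m ∧ ψ N + M ≤ ψ m := by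
    refine ⟨N + (ψ N + M), by omega, ?_⟩
    have := hψ.id_le (N + (ψ N + M))
    simp only [id] at this
    omega
  obtain ⟨m, hmN, hmM⟩ := hm
  refine ⟨(ψ m : ℝ) - ψ N, ?_, u (ψ m) * (u (ψ N))⁻¹, fun φ => ?_⟩
  · have : ((ψ N + M : ℕ) : ℝ) ≤ (ψ m : ℝ) := by exact_mod_cast hmM
    push_cast at this
    linarith
  · have hne : φ ((u (ψ N) : 𝓞 K) : K) ≠ 0 := by simp
    have hx0 : x (ψ N) φ ≠ 0 := by
      rw [← norm_pos_iff]
      exact lt_of_lt_of_le (Real.exp_pos _) (hlow _ φ)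
    have hquot : φ (((u (ψ m) * (u (ψ N))⁻¹ : (𝓞 K)ˣ) : 𝓞 K) : K)
        * Complex.exp (-((((ψ m : ℝ) - ψ N) * w φ : ℝ) : ℂ)) - 1
        = (x (ψ m) φ - x (ψ N) φ) / x (ψ N) φ := by
      have hinv : φ (((u (ψ N))⁻¹ : (𝓞 K)ˣ) : K) = (φ ((u (ψ N) : 𝓞 K) : K))⁻¹ := by
        apply eq_inv_of_mul_eq_one_left
        rw [← map_mul, ← map_mul]
        simp
      have h1 : (((u (ψ m) * (u (ψ N))⁻¹ : (𝓞 K)ˣ) : 𝓞 K) : K)
          = ((u (ψ m) : 𝓞 K) : K) * (((u (ψ N))⁻¹ : (𝓞 K)ˣ) : K) := by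
        push_cast
        rfl
      rw [h1, map_mul, hinv]
      have h2 : Complex.exp (-((((ψ m : ℝ) - ψ N) * w φ : ℝ) : ℂ))
          = Complex.exp (-(((ψ m : ℝ) * w φ : ℝ) : ℂ)) / Complex.exp (-(((ψ N : ℝ) * w φ : ℝ) : ℂ)) := by
        rw [← Complex.exp_sub]
        congr 1
        push_cast
        ring
      rw [h2]
      have h3 := Complex.exp_ne_zero (-(((ψ N : ℝ) * w φ : ℝ) : ℂ))
      simp only [x]
      rw [sub_div, div_self (mul_ne_zero hne h3)]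
      congr 1
      field_simp
    rw [hquot, norm_div, div_lt_iff₀ (norm_pos_iff.mpr hx0)]
    have h4 := hN m hmN N le_rfl
    have h5 : ‖x (ψ m) φ - x (ψ N) φ‖ < ε * Real.exp (-C) := by
      refine lt_of_le_of_lt ?_ h4
      rw [dist_eq_norm]
      exact norm_le_pi_norm (x (ψ m) - x (ψ N)) φ
    exact lt_of_lt_of_le h5 (mul_le_mul_of_nonneg_left (hlow _ φ) hε.le)

end Pool.Agent.H46
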