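import Mathlib
import Pool.Agent.H46.SignArg
import Pool.Agent.H46.UnitsRecur
import Pool.Agent.H46.Collision
import Pool.Agent.H46.Indep

set_option autoImplicit false

namespace Pool.Agent.H46

open Filter Topology NumberField

variable (K : Type*) [Field K] [NumberField K]

/-- The values of the linear form with coefficient vector `c` on `K`. -/
noncomputable def lf (c : (K →+* ℂ) → ℂ) (x : K) : ℂ := ∑ σ : K →+* ℂ, c σ * σ x

variable {K}

section

variable {ι : Type*} [Fintype ι] [DecidableEq ι] (a : ι → (K →+* ℂ) → ℂ) (I : Finset ι)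
  (S : Finset (K →+* ℂ))

open scoped Classical in
/-- The truncated coefficient matrix. -/
noncomputable def trunc (i : ι) (σ : K →+* ℂ) : ℂ := if (i ∈ I ↔ σ ∈ S) then a i σ else 0

open scoped Classical in
/-- The direction of the expansion, on embeddings. -/
noncomputable def dirS (σ : K →+* ℂ) : ℝ :=
  if σ ∈ S then -((Module.finrank ℚ K : ℝ) - S.card) else S.card

/-- The direction of the expansion, on rows. -/
noncomputable def dirI (i : ι) : ℝ :=
  if i ∈ I then -((Module.finrank ℚ K : ℝ) - S.card) else S.card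

theorem dirS_sum : ∑ σ : K →+* ℂ, dirS S σ = 0 := by
  classical
  unfold dirS
  rw [Finset.sum_ite]
  simp only [Finset.sum_const, nsmul_eq_mul]
  have h1 : (Finset.univ.filter (fun σ : K →+* ℂ => σ ∈ S)).card = S.card := by
    congr 1; ext; simp
  have h2 : (Finset.univ.filter (fun σ : K →+* ℂ => σ ∉ S)).card
      = Module.finrank ℚ K - S.card := by
    have h3 := Finset.card_filter_add_card_filter_not (s := (Finset.univ : Finset (K →+* ℂ)))
      (fun σ => σ ∈ S)
    rw [h1, Finset.card_univ, Embeddings.card K ℂ] at h3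
    omega
  have h4 : S.card ≤ Module.finrank ℚ K := by
    rw [← Embeddings.card K ℂ]
    exact Finset.card_le_univ S
  rw [h1, h2, Nat.cast_sub h4]
  ring

theorem dirI_sum (hι : Fintype.card ι = Module.finrank ℚ K) (hcard : I.card = S.card) :
    ∑ i : ι, dirI I S i = 0 := by
  classical
  unfold dirI
  rw [Finset.sum_ite]
  simp only [Finset.sum_const, nsmul_eq_mul]
  have h1 : (Finset.univ.filter (fun i : ι => i ∈ I)).card = I.card := by
    congr 1; ext; simp
  have h2 : (Finset.univ.filter (fun i : ι => i ∉ I)).card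
      = Module.finrank ℚ K - I.card := by
    have h3 := Finset.card_filter_add_card_filter_not (s := (Finset.univ : Finset ι))
      (fun i => i ∈ I)
    rw [h1, Finset.card_univ, hι] at h3
    omega
  have h4 : I.card ≤ Module.finrank ℚ K := by
    rw [← hι]
    exact Finset.card_le_univ I
  rw [h1, h2, Nat.cast_sub h4, hcard]
  ring

omit [Fintype ι] in
theorem dir_eq (i : ι) (σ : K →+* ℂ) (h : i ∈ I ↔ σ ∈ S) : dirS S σ = dirI I S i := by
  unfold dirS dirI
  by_cases hσ : σ ∈ S
  · rw [if_pos hσ, if_pos (h.mpr hσ)]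
  · rw [if_neg hσ, if_neg (fun hi => hσ (h.mp hi))]

end

/-- The truncated product is still bounded below on nonzero integers. -/
theorem trunc_lower {ι : Type*} [Fintype ι] [DecidableEq ι] (a : ι → (K →+* ℂ) → ℂ) (I : Finset ι)
    (S : Finset (K →+* ℂ)) (hι : Fintype.card ι = Module.finrank ℚ K) (hcard : I.card = S.card)
    (hIS : ∀ i ∈ I, ∀ σ, σ ∉ S → a i σ = 0)
    (hSc : ∀ σ, σ ∈ S ↔ ComplexEmbedding.conjugate σ ∈ S)
    (ν : ℝ) (hν : ∀ x : 𝓞 K, x ≠ 0 → ν ≤ ‖∏ i, lf K (a i) (x : K)‖)
    (x : 𝓞 K) (hx : x ≠ 0) : ν ≤ ‖∏ i, lf K (trunc a I S i) (x : K)‖ := by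
  classical
  have hd : (0 : ℝ) < Module.finrank ℚ K := by exact_mod_cast Module.finrank_pos
  have hconj : ∀ φ, dirS S (ComplexEmbedding.conjugate φ) = dirS S φ := by
    intro φ
    unfold dirS
    by_cases h : φ ∈ S
    · rw [if_pos h, if_pos ((hSc φ).mp h)]
    · rw [if_neg h, if_neg (fun h2 => h ((hSc φ).mpr h2))]
  choose s hs u hu using fun n : ℕ => units_recur K (dirS S) hconj (dirS_sum S)
    (1 / ((n : ℝ) + 1)) (by positivity) (n : ℝ)
  have hs_top : Tendsto s atTop atTop := tendsto_atTop_mono hs tendsto_natCast_atTop_atTop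
  have hz : ∀ φ : K →+* ℂ, Tendsto (fun n => φ ((u n : 𝓞 K) : K)
      * Complex.exp (-((s n * dirS S φ : ℝ) : ℂ))) atTop (𝓝 1) := by
    intro φ
    rw [tendsto_iff_norm_sub_tendsto_zero]
    exact squeeze_zero (fun n => norm_nonneg _) (fun n => (hu n φ).le)
      tendsto_one_div_add_atTop_nhds_zero_nat
  -- the rescaled values
  let G : ℕ → ι → ℂ := fun n i => ∑ σ : K →+* ℂ, a i σ * σ (x : K)
    * (σ ((u n : 𝓞 K) : K) * Complex.exp (-((s n * dirS S σ : ℝ) : ℂ)))
    * Complex.exp ((s n * (dirS S σ - dirI I S i) : ℝ) : ℂ)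
  have hG1 : ∀ n i, G n i = Complex.exp ((-(s n * dirI I S i) : ℝ) : ℂ)
      * lf K (a i) (((u n : 𝓞 K) * x : 𝓞 K) : K) := by
    intro n i
    simp only [G, lf]
    rw [Finset.mul_sum]
    apply Finset.sum_congr rfl
    intro σ _
    have h1 : Complex.exp (-((s n * dirS S σ : ℝ) : ℂ))
        * Complex.exp ((s n * (dirS S σ - dirI I S i) : ℝ) : ℂ)
        = Complex.exp ((-(s n * dirI I S i) : ℝ) : ℂ) := by
      rw [← Complex.exp_add]
      congr 1
      push_cast
      ring
    have h2 : σ ((((u n : 𝓞 K) * x : 𝓞 K)) : K) = σ ((u n : 𝓞 K) : K) * σ (x : K) := by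
      push_cast
      rw [map_mul]
    rw [h2, ← h1]
    ring
  have hG2 : ∀ n, ν ≤ ‖∏ i, G n i‖ := by
    intro n
    have h1 : ∏ i, G n i = ∏ i, lf K (a i) (((u n : 𝓞 K) * x : 𝓞 K) : K) := by
      simp only [hG1]
      rw [Finset.prod_mul_distrib, ← Complex.exp_sum]
      have h2 : ∑ i, ((-(s n * dirI I S i) : ℝ) : ℂ) = 0 := by
        rw [← Complex.ofReal_sum, Finset.sum_neg_distrib, ← Finset.mul_sum,
          dirI_sum I S hι hcard]
        simp
      rw [h2, Complex.exp_zero, one_mul]
    rw [h1]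
    apply hν
    exact mul_ne_zero (Units.ne_zero _) hx
  have hG3 : ∀ i, Tendsto (fun n => G n i) atTop (𝓝 (lf K (trunc a I S i) (x : K))) := by
    intro i
    apply tendsto_finsetSum
    intro σ _
    unfold trunc
    by_cases h : i ∈ I ↔ σ ∈ S
    · rw [if_pos h, dir_eq I S i σ h]
      simp only [sub_self, mul_zero, Complex.ofReal_zero, Complex.exp_zero, mul_one]
      have h1 := (hz σ).const_mul (a i σ * σ (x : K))
      rw [dir_eq I S i σ h] at h1
      simpa using h1
    · rw [if_neg h, zero_mul]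
      by_cases hi : i ∈ I
      · have hσ : σ ∉ S := fun hσ => h ⟨fun _ => hσ, fun _ => hi⟩
        rw [hIS i hi σ hσ]
        simp
      · have hσ : σ ∈ S := by
          by_contra hσ
          exact h ⟨fun h' => absurd h' hi, fun h' => absurd h' hσ⟩
        have hdir : dirS S σ - dirI I S i = -(Module.finrank ℚ K : ℝ) := by
          unfold dirS dirI
          rw [if_pos hσ, if_neg hi]
          ring
        rw [hdir]
        have h2 : Tendsto (fun n => Complex.exp ((s n * -(Module.finrank ℚ K : ℝ) : ℝ) : ℂ)) atTop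
            (𝓝 0) := by
          rw [tendsto_zero_iff_norm_tendsto_zero]
          have h3 : ∀ n, ‖Complex.exp ((s n * -(Module.finrank ℚ K : ℝ) : ℝ) : ℂ)‖
              = Real.exp (s n * -(Module.finrank ℚ K : ℝ)) := by
            intro n
            rw [Complex.norm_exp, Complex.ofReal_re]
          simp only [h3]
          apply Real.tendsto_exp_atBot.comp
          exact hs_top.atTop_mul_const_of_neg (by linarith)
        have h4 := ((hz σ).const_mul (a i σ * σ (x : K))).mul h2
        simpa using h4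
  have hlim : Tendsto (fun n => ‖∏ i, G n i‖) atTop
      (𝓝 ‖∏ i, lf K (trunc a I S i) (x : K)‖) :=
    (tendsto_finsetProd _ fun i _ => hG3 i).norm
  exact ge_of_tendsto hlim (Eventually.of_forall hG2)

end Pool.Agent.H46
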