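import Mathlib
import Pool.Agent.H46.Engine2

set_option autoImplicit false

namespace Pool.Agent.H46

open Filter Topology NumberField

variable {K : Type*} [Field K] [NumberField K]

/-- Linearly independent rows supported in `R` are at most `R.card` many. -/
theorem card_le_of_supported {ι : Type*} [Fintype ι] [DecidableEq ι] {κ : Type*} [Fintype κ]
    [DecidableEq κ] (a : ι → κ → ℂ) (hli : LinearIndependent ℂ a) (J : Finset ι) (R : Finset κ)
    (h : ∀ i ∈ J, ∀ σ, σ ∉ R → a i σ = 0) : J.card ≤ R.card := by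
  classical
  have h1 : LinearIndependent ℂ (fun i : J => (fun σ : R => a i.1 σ.1)) := by
    rw [Fintype.linearIndependent_iff]
    intro c hc i
    have hliJ : LinearIndependent ℂ (fun i : J => a i.1) := hli.comp _ Subtype.val_injective
    rw [Fintype.linearIndependent_iff] at hliJ
    apply hliJ c
    funext σ
    rw [Finset.sum_apply]
    by_cases hσ : σ ∈ R
    · have h2 := congr_fun hc ⟨σ, hσ⟩
      rw [Finset.sum_apply] at h2
      exact h2
    · rw [Pi.zero_apply]
      apply Finset.sum_eq_zero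
      intro i _
      rw [Pi.smul_apply, h i.1 i.2 σ hσ, smul_zero]
  have h2 := h1.fintype_card_le_finrank
  rw [Module.finrank_fintype_fun_eq_card, Fintype.card_coe, Fintype.card_coe] at h2
  exact h2

theorem purity {ι : Type*} [Fintype ι] [DecidableEq ι] (a : ι → (K →+* ℂ) → ℂ) (I : Finset ι)
    (S : Finset (K →+* ℂ)) (hι : Fintype.card ι = Module.finrank ℚ K) (hcard : I.card = S.card)
    (hcop : Nat.Coprime S.card (Module.finrank ℚ K)) (hd3 : 3 ≤ Module.finrank ℚ K)
    (hS : ∀ σ, σ ∈ S ↔ ∃ i ∈ I, a i σ ≠ 0) (hli : LinearIndependent ℂ a)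
    (hreal : ∀ i, ∀ x : 𝓞 K, (lf K (a i) (x : K)).im = 0)
    (ν : ℝ) (hν0 : 0 < ν) (hν : ∀ x : 𝓞 K, x ≠ 0 → ν ≤ ‖∏ i, lf K (a i) (x : K)‖)
    (i : ι) (σ τ : K →+* ℂ) (haσ : a i σ ≠ 0) (haτ : a i τ ≠ 0) : σ = τ := by
  classical
  have hcc : ∀ i (σ : K →+* ℂ), a i σ ≠ 0 → a i (ComplexEmbedding.conjugate σ) ≠ 0 := by
    intro i σ h
    rw [coeff_conj K (a i) (hreal i) σ]
    exact (map_ne_zero _).mpr h
  have hcc' : ∀ i (σ : K →+* ℂ), a i (ComplexEmbedding.conjugate σ) ≠ 0 → a i σ ≠ 0 := by
    intro i σ h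
    have := hcc i _ h
    rwa [ComplexEmbedding.involutive_conjugate K σ] at this
  have hIS : ∀ i ∈ I, ∀ σ, σ ∉ S → a i σ = 0 := by
    intro i hi σ hσ
    by_contra h
    exact hσ ((hS σ).mpr ⟨i, hi, h⟩)
  have hSc : ∀ σ, σ ∈ S ↔ ComplexEmbedding.conjugate σ ∈ S := by
    intro σ
    rw [hS, hS]
    constructor
    · rintro ⟨i, hi, h⟩
      exact ⟨i, hi, hcc i σ h⟩
    · rintro ⟨i, hi, h⟩
      exact ⟨i, hi, hcc' i σ h⟩
  have E1 := engine a I S hι hcard hcop (by omega) hIS hSc hreal ν hν0 hν
  by_contra hne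
  have hiI : i ∉ I := by
    intro hi
    have h1 : σ ∈ S := (hS σ).mpr ⟨i, hi, haσ⟩
    have h2 : τ ∈ S := (hS τ).mpr ⟨i, hi, haτ⟩
    exact hne (E1 i σ τ (by simp [hi, h1]) (by simp [hi, h2]) haσ haτ)
  -- one of the two lies in `S`
  obtain ⟨τ', hτ'S, haτ'⟩ : ∃ τ' ∈ S, a i τ' ≠ 0 := by
    by_cases h1 : σ ∈ S
    · exact ⟨σ, h1, haσ⟩
    · by_cases h2 : τ ∈ S
      · exact ⟨τ, h2, haτ⟩
      · exact absurd (E1 i σ τ (by simp [hiI, h1]) (by simp [hiI, h2]) haσ haτ) hne
  obtain ⟨σ', hσ'S, haσ'⟩ : ∃ σ', σ' ∉ S ∧ a i σ' ≠ 0 := by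
    by_contra hcon
    push Not at hcon
    have h1 := card_le_of_supported a hli (insert i I) S (by
      intro k hk σ hσ
      rcases Finset.mem_insert.mp hk with rfl | hk
      · exact hcon σ hσ
      · exact hIS k hk σ hσ)
    rw [Finset.card_insert_of_notMem hiI, hcard] at h1
    omega
  have hne' : σ' ≠ τ' := fun h => hσ'S (h ▸ hτ'S)
  by_cases hcase : ∃ ρ ∈ S, ρ ≠ τ'
  · obtain ⟨ρ, hρS, hρτ⟩ := hcase
    obtain ⟨k, hkI, hkρ⟩ := (hS ρ).mp hρS
    have hpure : ∀ φ, φ ≠ ρ → a k φ = 0 := by
      intro φ hφ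
      by_contra h
      have hφS : φ ∈ S := (hS φ).mpr ⟨k, hkI, h⟩
      exact hφ (E1 k φ ρ (by simp [hkI, hφS]) (by simp [hkI, hρS]) h hkρ)
    have hρreal : ComplexEmbedding.conjugate ρ = ρ := by
      by_contra h
      exact hcc k ρ hkρ (hpure _ h)
    have hik : i ≠ k := fun h => hiI (h ▸ hkI)
    have hσρ : σ' ≠ ρ := fun h => hσ'S (h ▸ hρS)
    have := engine a {k} {ρ} hι (by simp) (by simp) (by omega)
      (by
        intro m hm φ hφ
        rw [Finset.mem_singleton] at hm
        rw [Finset.mem_singleton] at hφ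
        rw [hm]
        exact hpure φ hφ)
      (by
        intro φ
        simp only [Finset.mem_singleton]
        constructor
        · rintro rfl; exact hρreal
        · intro h
          rw [← ComplexEmbedding.involutive_conjugate K φ, h, hρreal])
      hreal ν hν0 hν i σ' τ' (by simp [hik, hσρ]) (by simp [hik, hρτ.symm]) haσ' haτ'
    exact hne' this
  · push Not at hcase
    have hS1 : S = {τ'} := by
      ext φ
      rw [Finset.mem_singleton]
      exact ⟨fun h => hcase φ h, fun h => h ▸ hτ'S⟩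
    -- a further embedding
    obtain ⟨ρ, hρ⟩ : ∃ ρ : K →+* ℂ, ρ ∉ ({τ', σ'} : Finset (K →+* ℂ)) := by
      by_contra hcon
      push Not at hcon
      have h1 : (Finset.univ : Finset (K →+* ℂ)) ⊆ {τ', σ'} := fun φ _ => hcon φ
      have h2 := Finset.card_le_card h1
      rw [Finset.card_univ, Embeddings.card K ℂ] at h2
      have h3 : ({τ', σ'} : Finset (K →+* ℂ)).card ≤ 2 := Finset.card_le_two
      omega
    simp only [Finset.mem_insert, Finset.mem_singleton, not_or] at hρ
    obtain ⟨hρτ, hρσ⟩ := hρ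
    have hρS : ρ ∉ S := by rw [hS1, Finset.mem_singleton]; exact hρτ
    obtain ⟨k, hkρ⟩ : ∃ k, a k ρ ≠ 0 := by
      by_contra hcon
      push Not at hcon
      have h1 := card_le_of_supported a hli Finset.univ (Finset.univ.erase ρ) (by
        intro m _ φ hφ
        have : φ = ρ := by
          by_contra h
          exact hφ (Finset.mem_erase.mpr ⟨h, Finset.mem_univ _⟩)
        rw [this]
        exact hcon m)
      rw [Finset.card_erase_of_mem (Finset.mem_univ _), Finset.card_univ, Finset.card_univ, hι,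
        Embeddings.card K ℂ] at h1
      omega
    have hkI : k ∉ I := fun h => hkρ (hIS k h ρ hρS)
    have hik : i ≠ k := by
      rintro rfl
      exact hρσ (E1 i ρ σ' (by simp [hiI, hρS]) (by simp [hiI, hσ'S]) hkρ haσ')
    have hcol : ∀ m, m ≠ k → a m ρ = 0 := by
      intro m hmk
      by_contra hmρ
      have hmI : m ∉ I := fun h => hmρ (hIS m h ρ hρS)
      have h1 := card_le_of_supported a hli (insert m (insert k I)) (insert ρ S) (by
        intro n hn φ hφ
        rw [Finset.mem_insert, not_or] at hφ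
        rcases Finset.mem_insert.mp hn with rfl | hn
        · by_contra h
          exact hφ.1 (E1 n φ ρ (by simp [hmI, hφ.2]) (by simp [hmI, hρS]) h hmρ)
        · rcases Finset.mem_insert.mp hn with rfl | hn
          · by_contra h
            exact hφ.1 (E1 n φ ρ (by simp [hkI, hφ.2]) (by simp [hkI, hρS]) h hkρ)
          · exact hIS n hn φ hφ.2)
      rw [Finset.card_insert_of_notMem (by simp [hmk, hmI]), Finset.card_insert_of_notMem hkI,
        Finset.card_insert_of_notMem hρS, hcard] at h1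
      omega
    have hρreal : ComplexEmbedding.conjugate ρ = ρ := by
      have h1 : ComplexEmbedding.conjugate ρ ∉ S := fun h => hρS ((hSc ρ).mpr h)
      exact E1 k _ ρ (by simp [hkI, h1]) (by simp [hkI, hρS]) (hcc k ρ hkρ) hkρ
    have := engine a (Finset.univ.erase k) (Finset.univ.erase ρ) hι
      (by
        rw [Finset.card_erase_of_mem (Finset.mem_univ _), Finset.card_erase_of_mem (Finset.mem_univ _),
          Finset.card_univ, Finset.card_univ, hι, Embeddings.card K ℂ])
      (by
        rw [Finset.card_erase_of_mem (Finset.mem_univ _), Finset.card_univ, Embeddings.card K ℂ]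
        have h1 : Module.finrank ℚ K = (Module.finrank ℚ K - 1) + 1 := by omega
        rw [h1, Nat.add_sub_cancel]
        exact (Nat.coprime_self_add_right).mpr (Nat.coprime_one_right _))
      (by omega)
      (by
        intro m hm φ hφ
        have h1 : φ = ρ := by
          by_contra h
          exact hφ (Finset.mem_erase.mpr ⟨h, Finset.mem_univ _⟩)
        rw [h1]
        exact hcol m (Finset.ne_of_mem_erase hm))
      (by
        intro φ
        simp only [Finset.mem_erase, Finset.mem_univ, and_true, not_iff_not]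
        constructor
        · rintro rfl; exact hρreal
        · intro h
          rw [← ComplexEmbedding.involutive_conjugate K φ, h, hρreal])
      hreal ν hν0 hν i σ' τ' (by simp [hik, Ne.symm hρσ]) (by simp [hik, Ne.symm hρτ]) haσ' haτ'
    exact hne' this

end Pool.Agent.H46
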