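import Mathlib
import Pool.Agent.H46.Purity

set_option autoImplicit false

namespace Pool.Agent.H46

open Filter Topology NumberField Module

variable {K : Type*} [Field K] [NumberField K]

/-- Every rational linear functional is a combination of embeddings. -/
theorem coeff_exists (φ : K →ₗ[ℚ] ℂ) : ∃ c : (K →+* ℂ) → ℂ, ∀ x, lf K c x = φ x := by
  classical
  let Φ : ((K →+* ℂ) → ℂ) →ₗ[ℂ] (K →ₗ[ℚ] ℂ) :=
    { toFun := fun c =>
        { toFun := fun x => lf K c x
          map_add' := fun x y => by
            simp only [lf, map_add, mul_add, Finset.sum_add_distrib]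
          map_smul' := fun q x => by
            simp only [lf, RingHom.id_apply]
            rw [Finset.smul_sum]
            apply Finset.sum_congr rfl
            intro σ _
            rw [Rat.smul_def, map_mul, map_ratCast, Rat.smul_def]
            ring }
      map_add' := fun c c' => by
        ext x
        simp only [lf, Pi.add_apply, add_mul, Finset.sum_add_distrib, LinearMap.coe_mk,
          AddHom.coe_mk, LinearMap.add_apply]
      map_smul' := fun r c => by
        ext x
        simp only [lf, Pi.smul_apply, smul_eq_mul, LinearMap.coe_mk, AddHom.coe_mk,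
          LinearMap.smul_apply, RingHom.id_apply, Finset.mul_sum, mul_assoc] }
  have hinj : Function.Injective Φ := by
    rw [injective_iff_map_eq_zero]
    intro c hc
    apply indep_integers K
    intro a
    have := LinearMap.congr_fun hc (a : K)
    exact this
  have hdim : finrank ℂ ((K →+* ℂ) → ℂ) = finrank ℂ (K →ₗ[ℚ] ℂ) := by
    rw [finrank_fintype_fun_eq_card, Embeddings.card K ℂ, finrank_linearMap_self]
  have hsurj := (LinearMap.injective_iff_surjective_of_finrank_eq_finrank hdim).mp hinj
  obtain ⟨c, hc⟩ := hsurj φ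
  exact ⟨c, fun x => LinearMap.congr_fun hc x⟩

theorem lf_ext (c c' : (K →+* ℂ) → ℂ) (h : ∀ x : K, lf K c x = lf K c' x) : c = c' := by
  have h1 : c - c' = 0 := by
    apply indep_integers K
    intro a
    have := h a
    simp only [lf] at this
    simp only [Pi.sub_apply, sub_mul, Finset.sum_sub_distrib, this, sub_self]
  exact sub_eq_zero.mp h1

theorem lf_sum {ι : Type*} (s : Finset ι) (r : ι → ℂ) (c : ι → (K →+* ℂ) → ℂ) (x : K) :
    lf K (∑ k ∈ s, r k • c k) x = ∑ k ∈ s, r k * lf K (c k) x := by
  simp only [lf, Finset.sum_apply, Pi.smul_apply, smul_eq_mul, Finset.mul_sum, Finset.sum_mul]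
  rw [Finset.sum_comm]
  apply Finset.sum_congr rfl
  intro k _
  apply Finset.sum_congr rfl
  intro σ _
  ring

/-- A subspace stable under multiplication by a vector with distinct entries contains the
coordinate vectors of its support. -/
theorem single_mem_of_stable {κ : Type*} [Fintype κ] [DecidableEq κ] (W : Submodule ℂ (κ → ℂ))
    (lam : κ → ℂ) (hlam : Function.Injective lam) (hW : ∀ v ∈ W, lam * v ∈ W) (v : κ → ℂ)
    (hv : v ∈ W) (σ : κ) (hσ : v σ ≠ 0) : Pi.single σ (1 : ℂ) ∈ W := by
  classical
  -- apply `∏ (lam - lam τ)` over `τ ≠ σ`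
  have h1 : ∀ s : Finset κ, (∏ τ ∈ s, (lam - fun _ => lam τ)) * v ∈ W := by
    intro s
    induction s using Finset.induction_on with
    | empty => simpa using hv
    | insert τ s hτ ih =>
      rw [Finset.prod_insert hτ, mul_assoc, sub_mul]
      apply W.sub_mem (hW _ ih)
      have h2 : (fun _ : κ => lam τ) * ((∏ τ ∈ s, (lam - fun _ => lam τ)) * v)
          = lam τ • ((∏ τ ∈ s, (lam - fun _ => lam τ)) * v) := by
        ext i
        simp
      rw [h2]
      exact W.smul_mem _ ih
  have h2 := h1 (Finset.univ.erase σ)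
  set c : ℂ := (∏ τ ∈ Finset.univ.erase σ, (lam σ - lam τ)) * v σ with hc
  have hc0 : c ≠ 0 := by
    apply mul_ne_zero _ hσ
    rw [Finset.prod_ne_zero_iff]
    intro τ hτ h
    exact Finset.ne_of_mem_erase hτ (hlam (sub_eq_zero.mp h)).symm
  have h3 : (∏ τ ∈ Finset.univ.erase σ, (lam - fun _ => lam τ)) * v = c • Pi.single σ (1 : ℂ) := by
    funext i
    rw [Pi.mul_apply, Finset.prod_apply, Pi.smul_apply]
    by_cases hi : i = σ
    · subst hi
      simp [hc]
    · rw [Pi.single_eq_of_ne hi, smul_zero]
      have : ∏ τ ∈ Finset.univ.erase σ, ((lam - fun _ => lam τ : κ → ℂ) i) = 0 := by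
        apply Finset.prod_eq_zero (Finset.mem_erase.mpr ⟨hi, Finset.mem_univ i⟩)
        simp
      rw [this, zero_mul]
  rw [h3] at h2
  have h4 := W.smul_mem c⁻¹ h2
  rwa [smul_smul, inv_mul_cancel₀ hc0, one_smul] at h4

end Pool.Agent.H46
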