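import Mathlib
import Pool.Agent.H46.MainK
import Pool.Agent.H46.Integral

set_option autoImplicit false

namespace Pool.Agent.H46

open NumberField Module Polynomial

/-- The number field generated by an eigenvalue of an integer matrix with irreducible
characteristic polynomial, together with its action. -/
theorem field_of_matrix (d : ℕ) (M : Matrix (Fin d) (Fin d) ℚ) (hM : Irreducible M.charpoly) :
    ∃ (K : Type) (_ : Field K) (_ : NumberField K) (Ψ : K →ₐ[ℚ] Matrix (Fin d) (Fin d) ℚ) (θ : K),
      finrank ℚ K = d ∧ Ψ θ = M ∧ Function.Injective (fun σ : K →+* ℂ => σ θ) := by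
  classical
  have hfact : Fact (Irreducible M.charpoly) := ⟨hM⟩
  let K := AdjoinRoot M.charpoly
  let pb : PowerBasis ℚ K := AdjoinRoot.powerBasis hM.ne_zero
  have hfin : FiniteDimensional ℚ K := pb.finite
  have hnf : NumberField K := { to_charZero := charZero_of_injective_algebraMap
                                  (algebraMap ℚ K).injective
                                to_finiteDimensional := hfin }
  let f : ℚ[X] →ₐ[ℚ] Matrix (Fin d) (Fin d) ℚ := aeval M
  have hf : ∀ p : ℚ[X], p ∈ Ideal.span {M.charpoly} → f p = 0 := by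
    intro p hp
    rw [Ideal.mem_span_singleton] at hp
    obtain ⟨q, rfl⟩ := hp
    rw [map_mul]
    have : f M.charpoly = 0 := Matrix.aeval_self_charpoly M
    rw [this, zero_mul]
  let Ψ : K →ₐ[ℚ] Matrix (Fin d) (Fin d) ℚ := Ideal.Quotient.liftₐ (Ideal.span {M.charpoly}) f hf
  refine ⟨K, inferInstance, hnf, Ψ, AdjoinRoot.root M.charpoly, ?_, ?_, ?_⟩
  · rw [pb.finrank]
    simp only [pb, AdjoinRoot.powerBasis_dim]
    rw [Matrix.charpoly_natDegree_eq_dim, Fintype.card_fin]
  · have h1 : Ψ (AdjoinRoot.root M.charpoly) = f X := rfl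
    rw [h1]
    simp [f]
  · intro σ τ h
    have h1 : σ.toRatAlgHom = τ.toRatAlgHom := AdjoinRoot.algHom_ext h
    exact RingHom.ext fun x => AlgHom.congr_fun h1 x

end Pool.Agent.H46
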