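import Mathlib

set_option autoImplicit false

namespace Pool.Agent.H46

open MvPolynomial

/-- If finitely many elements of a commutative complex algebra satisfy relations
`e i ^ 3 = e j - e l`, then they generate a finite-dimensional subalgebra. -/
theorem adjoin_finite {σ : Type} [Finite σ] {A : Type} [CommRing A] [Algebra ℂ A] (e : σ → A)
    (h : ∀ i, ∃ j l, e i ^ 3 = e j - e l) :
    Module.Finite ℂ (Algebra.adjoin ℂ (Set.range e)) := by
  classical
  haveI := Fintype.ofFinite σ
  set box : Submodule ℂ A :=
    Submodule.span ℂ (Set.range (fun a : σ → Fin 3 => ∏ i, e i ^ (a i : ℕ))) with hbox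
  have hfin : Module.Finite ℂ box := by
    rw [hbox]
    exact Module.Finite.span_of_finite ℂ (Set.finite_range _)
  have key : ∀ d : ℕ, ∀ m : σ → ℕ, (∑ i, m i) = d → (∏ i, e i ^ m i) ∈ box := by
    intro d
    induction d using Nat.strong_induction_on with
    | _ d ih =>
      intro m hm
      by_cases hb : ∀ i, m i < 3
      · apply Submodule.subset_span
        exact ⟨fun i => ⟨m i, hb i⟩, rfl⟩
      · push Not at hb
        obtain ⟨i, hi⟩ := hb
        obtain ⟨j, l, hjl⟩ := h i
        -- m = m' + 3 δ_i
        set m' : σ → ℕ := Function.update m i (m i - 3) with hm'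
        have hsum : (∑ k, m' k) + 3 = d := by
          rw [← hm, hm', Finset.sum_update_of_mem (Finset.mem_univ i)]
          rw [← Finset.sum_sdiff (Finset.subset_univ {i})]
          simp
          omega
        have hprod : (∏ k, e k ^ m k) = e i ^ 3 * ∏ k, e k ^ m' k := by
          rw [← Finset.mul_prod_erase Finset.univ (fun k => e k ^ m k) (Finset.mem_univ i),
            ← Finset.mul_prod_erase Finset.univ (fun k => e k ^ m' k) (Finset.mem_univ i)]
          have h1 : e i ^ m i = e i ^ 3 * e i ^ m' i := by
            rw [← pow_add]
            congr 1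
            simp [hm']
            omega
          have h2 : ∏ k ∈ Finset.univ.erase i, e k ^ m k
              = ∏ k ∈ Finset.univ.erase i, e k ^ m' k := by
            apply Finset.prod_congr rfl
            intro k hk
            rw [hm', Function.update_of_ne (Finset.ne_of_mem_erase hk)]
          rw [h1, h2, mul_assoc]
        have hmulgen : ∀ j : σ, e j * ∏ k, e k ^ m' k ∈ box := by
          intro j
          set m'' : σ → ℕ := Function.update m' j (m' j + 1) with hm''
          have hs : (∑ k, m'' k) = (∑ k, m' k) + 1 := by
            rw [hm'', Finset.sum_update_of_mem (Finset.mem_univ j)]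
            rw [← Finset.sum_sdiff (Finset.subset_univ {j}) (f := m')]
            simp
            omega
          have hp : e j * ∏ k, e k ^ m' k = ∏ k, e k ^ m'' k := by
            rw [← Finset.mul_prod_erase Finset.univ (fun k => e k ^ m' k) (Finset.mem_univ j),
              ← Finset.mul_prod_erase Finset.univ (fun k => e k ^ m'' k) (Finset.mem_univ j)]
            have h1 : e j ^ m'' j = e j * e j ^ m' j := by
              simp [hm'', pow_succ, mul_comm]
            have h2 : ∏ k ∈ Finset.univ.erase j, e k ^ m'' k
                = ∏ k ∈ Finset.univ.erase j, e k ^ m' k := by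
              apply Finset.prod_congr rfl
              intro k hk
              rw [hm'', Function.update_of_ne (Finset.ne_of_mem_erase hk)]
            rw [h1, h2, mul_assoc]
          rw [hp]
          exact ih (∑ k, m'' k) (by omega) m'' rfl
        rw [hprod, hjl, sub_mul]
        exact Submodule.sub_mem _ (hmulgen j) (hmulgen l)
  have hle : Subalgebra.toSubmodule (Algebra.adjoin ℂ (Set.range e)) ≤ box := by
    intro x hx
    rw [Subalgebra.mem_toSubmodule, Algebra.adjoin_range_eq_range_aeval] at hx
    obtain ⟨p, rfl⟩ := hx
    induction p using MvPolynomial.induction_on' with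
    | monomial u a =>
      simp only [AlgHom.toRingHom_eq_coe, RingHom.coe_coe]
      rw [aeval_monomial]
      rw [← Algebra.smul_def]
      apply Submodule.smul_mem
      rw [Finsupp.prod_fintype _ _ (by simp)]
      exact key _ (fun i => u i) rfl
    | add p q hp hq =>
      simp only [AlgHom.toRingHom_eq_coe, RingHom.coe_coe, map_add] at *
      exact Submodule.add_mem _ hp hq
  have : Module.Finite ℂ (Subalgebra.toSubmodule (Algebra.adjoin ℂ (Set.range e))) :=
    Submodule.finiteDimensional_of_le hle
  exact this

/-- A finite-dimensional complex algebra has finitely many characters. -/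
theorem algHom_finite {B : Type} [CommRing B] [Algebra ℂ B] [Module.Finite ℂ B] :
    Finite (B →ₐ[ℂ] ℂ) := by
  have := linearIndependent_algHom_toLinearMap ℂ B ℂ
  exact this.finite

end Pool.Agent.H46
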