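import Mathlib
import Pool.Agent.H46.FinDim

set_option autoImplicit false

namespace Pool.Agent.H46

/-- The generalised Henon map `(x, y) ↦ (x + y³, y - (x + y³)³)` of `ℂ²`. -/
def hen (z : Fin 2 → ℂ) : Fin 2 → ℂ :=
  ![z 0 + z 1 ^ 3, z 1 - (z 0 + z 1 ^ 3) ^ 3]

theorem hen_zero (z : Fin 2 → ℂ) : hen z 0 = z 0 + z 1 ^ 3 := rfl

theorem hen_one (z : Fin 2 → ℂ) : hen z 1 = z 1 - (hen z 0) ^ 3 := rfl

/-- For each `N ≥ 1` the Henon map has only finitely many points with `f^N z = z`. -/
theorem hen_fix_finite (N : ℕ) (hN : 0 < N) : {z : Fin 2 → ℂ | hen^[N] z = z}.Finite := by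
  classical
  set Z : Set (Fin 2 → ℂ) := {z : Fin 2 → ℂ | hen^[N] z = z} with hZ
  -- coordinate functions along the orbit
  let e : Fin N × Fin 2 → (Z → ℂ) := fun i z => (hen^[(i.1 : ℕ)] z.1) i.2
  have hstep : ∀ (k : ℕ) (z : Fin 2 → ℂ), hen^[k + 1] z = hen (hen^[k] z) := by
    intro k z
    exact Function.iterate_succ_apply' hen k z
  have h : ∀ i, ∃ j l, e i ^ 3 = e j - e l := by
    rintro ⟨k, c⟩
    fin_cases c
    · -- x_k ^ 3 = y_{k-1} - y_k
      rcases Nat.eq_zero_or_pos k.1 with hk | hk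
      · refine ⟨(⟨N - 1, by omega⟩, 1), (k, 1), ?_⟩
        funext z
        have hz : hen^[N] z.1 = z.1 := z.2
        have h1 : hen (hen^[N - 1] z.1) = z.1 := by
          rw [← hstep]
          rw [show N - 1 + 1 = N by omega]
          exact hz
        simp only [e, Pi.pow_apply, Pi.sub_apply, hk, Function.iterate_zero, id]
        have h2 := hen_one (hen^[N - 1] z.1)
        rw [h1] at h2
        rw [h2]
        simp
      · refine ⟨(⟨k.1 - 1, by omega⟩, 1), (k, 1), ?_⟩
        funext z
        have h1 : hen (hen^[k.1 - 1] z.1) = hen^[k.1] z.1 := by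
          rw [← hstep]
          rw [show k.1 - 1 + 1 = k.1 by omega]
        simp only [e, Pi.pow_apply, Pi.sub_apply]
        have h2 := hen_one (hen^[k.1 - 1] z.1)
        rw [h1] at h2
        rw [h2]
        simp
    · -- y_k ^ 3 = x_{k+1} - x_k
      by_cases hk : k.1 + 1 < N
      · refine ⟨(⟨k.1 + 1, hk⟩, 0), (k, 0), ?_⟩
        funext z
        simp only [e, Pi.pow_apply, Pi.sub_apply]
        rw [hstep, hen_zero]
        simp
      · refine ⟨(⟨0, hN⟩, 0), (k, 0), ?_⟩
        funext z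
        have hz : hen^[N] z.1 = z.1 := z.2
        have h1 : hen (hen^[k.1] z.1) = z.1 := by
          rw [← hstep]
          rw [show k.1 + 1 = N by omega]
          exact hz
        simp only [e, Pi.pow_apply, Pi.sub_apply, Function.iterate_zero, id]
        have h2 := hen_zero (hen^[k.1] z.1)
        rw [h1] at h2
        rw [h2]
        simp
  have hfin : Module.Finite ℂ (Algebra.adjoin ℂ (Set.range e)) := adjoin_finite e h
  set B := Algebra.adjoin ℂ (Set.range e) with hB
  have hfin2 : Finite (B →ₐ[ℂ] ℂ) := algHom_finite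
  let φ : Z → (B →ₐ[ℂ] ℂ) := fun z => (Pi.evalAlgHom ℂ (fun _ : Z => ℂ) z).comp B.val
  have hφ : Function.Injective φ := by
    intro z w hzw
    have hc : ∀ c : Fin 2, z.1 c = w.1 c := by
      intro c
      have hmem : e (⟨0, hN⟩, c) ∈ B := Algebra.subset_adjoin ⟨_, rfl⟩
      have := DFunLike.congr_fun hzw ⟨_, hmem⟩
      simpa [φ, e] using this
    exact Subtype.ext (funext hc)
  have : Finite Z := Finite.of_injective φ hφ
  exact Set.toFinite Z

end Pool.Agent.H46
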