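import Mathlib

set_option autoImplicit false

namespace Pool.Agent.H46

open MeasureTheory intervalIntegral

/-- `cos⁴ + sin⁴`. -/
noncomputable def quarD (s : ℝ) : ℝ := Real.cos s ^ 4 + Real.sin s ^ 4

theorem quarD_pos (s : ℝ) : 0 < quarD s := by
  unfold quarD
  have h := Real.sin_sq_add_cos_sq s
  by_contra hc
  push Not at hc
  have h1 : 0 ≤ Real.cos s ^ 4 := by positivity
  have h2 : 0 ≤ Real.sin s ^ 4 := by positivity
  have h3 : Real.cos s ^ 4 = 0 := by linarith
  have h4 : Real.sin s ^ 4 = 0 := by linarith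
  have h5 : Real.cos s = 0 := by simpa using h3
  have h6 : Real.sin s = 0 := by simpa using h4
  rw [h5, h6] at h
  norm_num at h

theorem quarD_le_one (s : ℝ) : quarD s ≤ 1 := by
  unfold quarD
  have h := Real.sin_sq_add_cos_sq s
  nlinarith [sq_nonneg (Real.sin s * Real.cos s), sq_nonneg (Real.sin s), sq_nonneg (Real.cos s)]

/-- The fourth root of `cos⁴ + sin⁴`. -/
noncomputable def quarQ (s : ℝ) : ℝ := Real.sqrt (Real.sqrt (quarD s))

theorem quarQ_pos (s : ℝ) : 0 < quarQ s :=
  Real.sqrt_pos.mpr (Real.sqrt_pos.mpr (quarD_pos s))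

theorem quarQ_sq (s : ℝ) : quarQ s ^ 2 = Real.sqrt (quarD s) :=
  Real.sq_sqrt (Real.sqrt_nonneg _)

theorem quarQ_pow_four (s : ℝ) : quarQ s ^ 4 = quarD s := by
  have h : quarQ s ^ 4 = (quarQ s ^ 2) ^ 2 := by ring
  rw [h, quarQ_sq, Real.sq_sqrt (quarD_pos s).le]

theorem quarQ_sq_le_one (s : ℝ) : quarQ s ^ 2 ≤ 1 := by
  rw [quarQ_sq]
  exact Real.sqrt_le_one.mpr (quarD_le_one s)

theorem quarD_hasDerivAt (s : ℝ) :
    HasDerivAt quarD (-4 * Real.cos s ^ 3 * Real.sin s + 4 * Real.sin s ^ 3 * Real.cos s) s := by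
  have h1 := ((Real.hasDerivAt_cos s).pow 4).add ((Real.hasDerivAt_sin s).pow 4)
  refine HasDerivAt.congr_deriv (f := quarD) h1 ?_
  push_cast
  ring

theorem quarQ_hasDerivAt (s : ℝ) :
    HasDerivAt quarQ
      ((-Real.cos s ^ 3 * Real.sin s + Real.sin s ^ 3 * Real.cos s) / quarQ s ^ 3) s := by
  have h0 : Real.sqrt (quarD s) ≠ 0 := (Real.sqrt_pos.mpr (quarD_pos s)).ne'
  have h1 := ((quarD_hasDerivAt s).sqrt (quarD_pos s).ne').sqrt h0
  refine HasDerivAt.congr_deriv (f := quarQ) h1 ?_
  have hq : Real.sqrt (Real.sqrt (quarD s)) = quarQ s := rfl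
  rw [hq, ← quarQ_sq]
  have := (quarQ_pos s).ne'
  field_simp
  ring

theorem quarQ_continuous : Continuous quarQ := by
  unfold quarQ quarD
  fun_prop

theorem quarQ_periodic : Function.Periodic quarQ (2 * Real.pi) := by
  intro s
  simp [quarQ, quarD]

/-- The time function `G(s) = ∫₀ˢ du / q(u)²`. -/
noncomputable def quarG (s : ℝ) : ℝ := ∫ u in (0 : ℝ)..s, (quarQ u ^ 2)⁻¹

theorem quarInt_continuous : Continuous (fun u => (quarQ u ^ 2)⁻¹) :=
  (quarQ_continuous.pow 2).inv₀ (fun u => (pow_pos (quarQ_pos u) 2).ne')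

theorem quarG_hasDerivAt (s : ℝ) : HasDerivAt quarG ((quarQ s ^ 2)⁻¹) s :=
  intervalIntegral.integral_hasDerivAt_right
    (quarInt_continuous.intervalIntegrable _ _)
    (quarInt_continuous.stronglyMeasurableAtFilter _ _)
    quarInt_continuous.continuousAt

theorem quarG_strictMono : StrictMono quarG := by
  apply strictMono_of_deriv_pos
  intro s
  rw [(quarG_hasDerivAt s).deriv]
  have := quarQ_pos s
  positivity

theorem quarG_zero : quarG 0 = 0 := by simp [quarG]

theorem one_le_quarInt (u : ℝ) : 1 ≤ (quarQ u ^ 2)⁻¹ := by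
  have h1 := quarQ_sq_le_one u
  have h2 := pow_pos (quarQ_pos u) 2
  exact (one_le_inv₀ h2).mpr h1

theorem quarG_sub_monotone : Monotone (fun s => quarG s - s) := by
  have hd : ∀ s, HasDerivAt (fun s => quarG s - s) ((quarQ s ^ 2)⁻¹ - 1) s := fun s =>
    (quarG_hasDerivAt s).sub (hasDerivAt_id s)
  apply monotone_of_deriv_nonneg (fun s => (hd s).differentiableAt)
  intro s
  rw [(hd s).deriv]
  linarith [one_le_quarInt s]

theorem quarG_continuous : Continuous quarG :=
  continuous_iff_continuousAt.mpr fun s => (quarG_hasDerivAt s).continuousAt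

theorem quarG_surjective : Function.Surjective quarG := by
  intro y
  have hmono := quarG_sub_monotone
  have h0 := quarG_zero
  have h1 : y ≤ quarG (|y|) := by
    have := hmono (abs_nonneg y)
    simp only [h0] at this
    linarith [le_abs_self y]
  have h2 : quarG (-|y|) ≤ y := by
    have := hmono (neg_nonpos.mpr (abs_nonneg y))
    simp only [h0] at this
    linarith [neg_abs_le y]
  have := intermediate_value_Icc (a := -|y|) (b := |y|) (by linarith [abs_nonneg y])
    quarG_continuous.continuousOn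
  obtain ⟨s, -, hs⟩ := this ⟨h2, h1⟩
  exact ⟨s, hs⟩

/-- There is a non-constant real periodic solution of `x' = y³, y' = -x³`. -/
theorem exists_periodic : ∃ (x y : ℝ → ℝ) (T : ℝ), 0 < T ∧
    (∀ t, HasDerivAt x (y t ^ 3) t) ∧ (∀ t, HasDerivAt y (-(x t ^ 3)) t) ∧
    (∀ t, x (t + T) = x t) ∧ (∀ t, y (t + T) = y t) ∧ x 0 = 1 ∧ (∃ t, x t = -1) ∧
    ∀ t, x t ^ 4 + y t ^ 4 = 1 := by
  let Ge : ℝ ≃o ℝ := quarG_strictMono.orderIsoOfSurjective quarG quarG_surjective
  let g : ℝ → ℝ := Ge.symm
  have hGg : ∀ t, quarG (g t) = t := fun t => Ge.apply_symm_apply t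
  have hgG : ∀ t, g (quarG t) = t := fun t => Ge.symm_apply_apply t
  have hgc : Continuous g := Ge.symm.continuous
  have hgd : ∀ t, HasDerivAt g (quarQ (g t) ^ 2) t := by
    intro t
    have h1 := HasDerivAt.of_local_left_inverse (f := quarG) (g := g) (a := t)
      hgc.continuousAt (quarG_hasDerivAt (g t))
      (inv_ne_zero (pow_pos (quarQ_pos _) 2).ne')
      (Filter.Eventually.of_forall hGg)
    simpa using h1
  have hper : ∀ s, quarG (s + 2 * Real.pi) = quarG s + quarG (2 * Real.pi) := by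
    intro s
    have hp : Function.Periodic (fun u => (quarQ u ^ 2)⁻¹) (2 * Real.pi) := by
      intro u
      simp only [quarQ_periodic u]
    have h1 := hp.intervalIntegral_add_eq s 0
    simp only [zero_add] at h1
    unfold quarG
    rw [← h1]
    exact (intervalIntegral.integral_add_adjacent_intervals
      (quarInt_continuous.intervalIntegrable _ _)
      (quarInt_continuous.intervalIntegrable _ _)).symm
  have hgper : ∀ t, g (t + quarG (2 * Real.pi)) = g t + 2 * Real.pi := by
    intro t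
    apply quarG_strictMono.injective
    rw [hGg, hper, hGg]
  have hx : ∀ s, HasDerivAt (fun s => Real.cos s / quarQ s)
      (-(Real.sin s ^ 3) / quarQ s ^ 5) s := by
    intro s
    have h1 := (Real.hasDerivAt_cos s).div (quarQ_hasDerivAt s) (quarQ_pos s).ne'
    refine h1.congr_deriv ?_
    have hq := (quarQ_pos s).ne'
    have h4 := quarQ_pow_four s
    unfold quarD at h4
    have htr := Real.sin_sq_add_cos_sq s
    field_simp
    have h5 : quarQ s ^ 4 * Real.sin s = (Real.cos s ^ 4 + Real.sin s ^ 4) * Real.sin s := by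
      rw [h4]
    have h6 : Real.sin s ^ 5 = Real.sin s ^ 3 * (1 - Real.cos s ^ 2) := by
      rw [← htr]; ring
    nlinarith [h5, h6]
  have hy : ∀ s, HasDerivAt (fun s => -(Real.sin s / quarQ s))
      (-(Real.cos s ^ 3) / quarQ s ^ 5) s := by
    intro s
    have h1 := ((Real.hasDerivAt_sin s).div (quarQ_hasDerivAt s) (quarQ_pos s).ne').neg
    refine h1.congr_deriv ?_
    have hq := (quarQ_pos s).ne'
    have h4 := quarQ_pow_four s
    unfold quarD at h4
    have htr := Real.sin_sq_add_cos_sq s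
    field_simp
    have h5 : quarQ s ^ 4 * Real.cos s = (Real.cos s ^ 4 + Real.sin s ^ 4) * Real.cos s := by
      rw [h4]
    have h6 : Real.cos s ^ 5 = Real.cos s ^ 3 * (1 - Real.sin s ^ 2) := by
      rw [← htr]; ring
    nlinarith [h5, h6]
  refine ⟨fun t => Real.cos (g t) / quarQ (g t), fun t => -(Real.sin (g t) / quarQ (g t)),
    quarG (2 * Real.pi), ?_, ?_, ?_, ?_, ?_, ?_, ?_, ?_⟩
  · rw [← quarG_zero]
    exact quarG_strictMono (by positivity)
  · intro t
    have h1 := (hx (g t)).comp t (hgd t)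
    refine h1.congr_deriv ?_
    have hq := (quarQ_pos (g t)).ne'
    field_simp
  · intro t
    have h1 := (hy (g t)).comp t (hgd t)
    refine h1.congr_deriv ?_
    have hq := (quarQ_pos (g t)).ne'
    field_simp
  · intro t
    simp only [hgper, quarQ_periodic (g t), Real.cos_add_two_pi]
  · intro t
    simp only [hgper, quarQ_periodic (g t), Real.sin_add_two_pi]
  · have h0 : g 0 = 0 := by
      have := hgG 0
      rwa [quarG_zero] at this
    simp [h0, quarQ, quarD]
  · refine ⟨quarG Real.pi, ?_⟩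
    have h4 : ((-1 : ℝ)) ^ 4 = 1 := by norm_num
    simp [hgG, quarQ, quarD, h4]
  · intro t
    have h4 := quarQ_pow_four (g t)
    have hq := (quarQ_pos (g t)).ne'
    unfold quarD at h4
    field_simp
    linarith

end Pool.Agent.H46
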