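import Mathlib
import Pool.Agent.H46.Periodic
import Pool.Agent.H46.HenonFix

set_option autoImplicit false
open Topology Asymptotics

namespace Pool.Agent.H46

/-- The homogeneous cubic vector field `(y³, -x³)` of `ℂ²`. -/
def vf (z : Fin 2 → ℂ) : Fin 2 → ℂ := ![z 1 ^ 3, -(z 0 ^ 3)]

/-- The same field as a pair of polynomials. -/
noncomputable def vfQ : Fin 2 → MvPolynomial (Fin 2) ℂ :=
  ![MvPolynomial.X 1 ^ 3, -(MvPolynomial.X 0 ^ 3)]

theorem eval_vfQ (z : Fin 2 → ℂ) : (fun i => MvPolynomial.eval z (vfQ i)) = vf z := by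
  funext i
  fin_cases i <;> simp [vfQ, vf]

theorem vfQ_hom (i : Fin 2) : (vfQ i).IsHomogeneous 3 := by
  fin_cases i
  · simpa [vfQ] using (MvPolynomial.isHomogeneous_X ℂ (1 : Fin 2)).pow 3
  · have := ((MvPolynomial.isHomogeneous_X ℂ (0 : Fin 2)).pow 3).neg
    simpa [vfQ] using this

theorem hen_analyticAt : AnalyticAt ℂ hen 0 := by
  have h0 : AnalyticAt ℂ (fun z : Fin 2 → ℂ => z 0) 0 :=
    (ContinuousLinearMap.proj (R := ℂ) (φ := fun _ : Fin 2 => ℂ) 0).analyticAt 0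
  have h1 : AnalyticAt ℂ (fun z : Fin 2 → ℂ => z 1) 0 :=
    (ContinuousLinearMap.proj (R := ℂ) (φ := fun _ : Fin 2 => ℂ) 1).analyticAt 0
  rw [analyticAt_pi_iff]
  intro i
  fin_cases i
  · exact h0.add (h1.pow 3)
  · exact h1.sub ((h0.add (h1.pow 3)).pow 3)

theorem hen_map_zero : hen 0 = 0 := by
  funext i
  fin_cases i <;> simp [hen]

theorem hen_isBigO :
    (fun z : Fin 2 → ℂ => hen z - z - (fun i => MvPolynomial.eval z (vfQ i)))
        =O[𝓝 0] (fun z : Fin 2 → ℂ => ‖z‖ ^ (3 + 1)) := by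
  apply IsBigO.of_bound 7
  have hball : Metric.ball (0 : Fin 2 → ℂ) 1 ∈ 𝓝 (0 : Fin 2 → ℂ) := Metric.ball_mem_nhds 0 one_pos
  filter_upwards [hball] with z hz
  rw [eval_vfQ]
  have hz1 : ‖z‖ ≤ 1 := by
    rw [mem_ball_zero_iff] at hz
    exact hz.le
  have ha : ‖z 0‖ ≤ ‖z‖ := norm_le_pi_norm z 0
  have hb : ‖z 1‖ ≤ ‖z‖ := norm_le_pi_norm z 1
  have hn : 0 ≤ ‖z‖ := norm_nonneg z
  rw [norm_pow, norm_norm, pi_norm_le_iff_of_nonneg (by positivity)]
  intro i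
  fin_cases i
  · have h0 : (hen z - z - vf z) 0 = 0 := by
      simp only [hen, vf, Pi.sub_apply, Matrix.cons_val_zero]
      ring
    simp only [Fin.zero_eta, h0, norm_zero]
    positivity
  · simp only [hen, vf, Pi.sub_apply, Fin.mk_one, Matrix.cons_val_one,
      Matrix.cons_val_fin_one]
    have heq : z 1 - (z 0 + z 1 ^ 3) ^ 3 - z 1 - -z 0 ^ 3
        = -(3 * z 0 ^ 2 * z 1 ^ 3 + 3 * z 0 * z 1 ^ 6 + z 1 ^ 9) := by ring
    rw [heq, norm_neg]
    set r := ‖z‖ with hr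
    have e1 : ‖3 * z 0 ^ 2 * z 1 ^ 3‖ ≤ 3 * r ^ 4 := by
      rw [norm_mul, norm_mul, norm_pow, norm_pow]
      have h3 : ‖(3 : ℂ)‖ = 3 := by simp
      rw [h3]
      calc 3 * ‖z 0‖ ^ 2 * ‖z 1‖ ^ 3 ≤ 3 * r ^ 2 * r ^ 3 := by gcongr
        _ = 3 * r ^ 4 * r := by ring
        _ ≤ 3 * r ^ 4 * 1 := by gcongr
        _ = 3 * r ^ 4 := by ring
    have e2 : ‖3 * z 0 * z 1 ^ 6‖ ≤ 3 * r ^ 4 := by
      rw [norm_mul, norm_mul, norm_pow]
      have h3 : ‖(3 : ℂ)‖ = 3 := by simp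
      rw [h3]
      calc 3 * ‖z 0‖ * ‖z 1‖ ^ 6 ≤ 3 * r * r ^ 6 := by gcongr
        _ = 3 * r ^ 4 * r ^ 3 := by ring
        _ ≤ 3 * r ^ 4 * 1 := by
            gcongr
            exact pow_le_one₀ hn hz1
        _ = 3 * r ^ 4 := by ring
    have e3 : ‖z 1 ^ 9‖ ≤ r ^ 4 := by
      rw [norm_pow]
      calc ‖z 1‖ ^ 9 ≤ r ^ 9 := by gcongr
        _ = r ^ 4 * r ^ 5 := by ring
        _ ≤ r ^ 4 * 1 := by
            gcongr
            exact pow_le_one₀ hn hz1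
        _ = r ^ 4 := by ring
    calc ‖3 * z 0 ^ 2 * z 1 ^ 3 + 3 * z 0 * z 1 ^ 6 + z 1 ^ 9‖
        ≤ ‖3 * z 0 ^ 2 * z 1 ^ 3‖ + ‖3 * z 0 * z 1 ^ 6‖ + ‖z 1 ^ 9‖ := norm_add₃_le
      _ ≤ 3 * r ^ 4 + 3 * r ^ 4 + r ^ 4 := by gcongr
      _ = 7 * r ^ (3 + 1) := by ring

theorem vf_nondeg (v : Fin 2 → ℂ) (c : ℂ) (hv : v ≠ 0)
    (h : (fun i => MvPolynomial.eval v (vfQ i)) = c • v) : c ≠ 0 := by
  intro hc
  rw [eval_vfQ, hc, zero_smul] at h
  apply hv
  have h0 := congr_fun h 0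
  have h1 := congr_fun h 1
  simp [vf] at h0 h1
  funext i
  fin_cases i
  · simpa using h1
  · simpa using h0

theorem cube_sub_norm_le {a b : ℂ} {R : ℝ} (ha : ‖a‖ ≤ R) (hb : ‖b‖ ≤ R) :
    ‖a ^ 3 - b ^ 3‖ ≤ 3 * R ^ 2 * ‖a - b‖ := by
  have hR : 0 ≤ R := (norm_nonneg a).trans ha
  have h : a ^ 3 - b ^ 3 = (a ^ 2 + a * b + b ^ 2) * (a - b) := by ring
  rw [h, norm_mul]
  have h2 : ‖a ^ 2 + a * b + b ^ 2‖ ≤ 3 * R ^ 2 := by
    calc ‖a ^ 2 + a * b + b ^ 2‖ ≤ ‖a ^ 2‖ + ‖a * b‖ + ‖b ^ 2‖ := norm_add₃_le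
      _ = ‖a‖ ^ 2 + ‖a‖ * ‖b‖ + ‖b‖ ^ 2 := by rw [norm_pow, norm_mul, norm_pow]
      _ ≤ R ^ 2 + R * R + R ^ 2 := by gcongr
      _ = 3 * R ^ 2 := by ring
  gcongr

theorem vf_lipschitz (R : ℝ) :
    LipschitzOnWith (Real.toNNReal (3 * R ^ 2)) vf (Metric.closedBall 0 R) := by
  apply LipschitzOnWith.of_dist_le_mul
  intro z hz w hw
  rw [mem_closedBall_zero_iff] at hz hw
  have hn : 0 ≤ dist z w := dist_nonneg
  rw [dist_pi_le_iff (by positivity)]
  intro i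
  rw [Real.coe_toNNReal _ (by positivity)]
  fin_cases i
  · simp only [vf, Fin.zero_eta, Matrix.cons_val_zero]
    rw [dist_eq_norm]
    refine (cube_sub_norm_le ((norm_le_pi_norm z 1).trans hz) ((norm_le_pi_norm w 1).trans hw)).trans ?_
    gcongr
    rw [← dist_eq_norm]
    exact dist_le_pi_dist z w 1
  · simp only [vf, Fin.mk_one, Matrix.cons_val_one, Matrix.cons_val_fin_one]
    rw [dist_eq_norm]
    have : -z 0 ^ 3 - -w 0 ^ 3 = -(z 0 ^ 3 - w 0 ^ 3) := by ring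
    rw [this, norm_neg]
    refine (cube_sub_norm_le ((norm_le_pi_norm z 0).trans hz) ((norm_le_pi_norm w 0).trans hw)).trans ?_
    gcongr
    rw [← dist_eq_norm]
    exact dist_le_pi_dist z w 0

/-- Uniqueness for the initial value problem of `vf` on `[0, 1]`. -/
theorem vf_unique (γ δ : ℝ → (Fin 2 → ℂ))
    (hγ : ∀ t ∈ Set.Icc (0 : ℝ) 1, HasDerivWithinAt γ (vf (γ t)) (Set.Icc 0 1) t)
    (hδ : ∀ t ∈ Set.Icc (0 : ℝ) 1, HasDerivWithinAt δ (vf (δ t)) (Set.Icc 0 1) t)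
    (h0 : γ 0 = δ 0) : γ 1 = δ 1 := by
  have hγc : ContinuousOn γ (Set.Icc 0 1) := fun t ht => (hγ t ht).continuousWithinAt
  have hδc : ContinuousOn δ (Set.Icc 0 1) := fun t ht => (hδ t ht).continuousWithinAt
  obtain ⟨R1, hR1⟩ := (isCompact_Icc.image_of_continuousOn hγc).isBounded.exists_norm_le
  obtain ⟨R2, hR2⟩ := (isCompact_Icc.image_of_continuousOn hδc).isBounded.exists_norm_le
  set R := max (max R1 R2) 0 with hR
  have hder : ∀ (η : ℝ → (Fin 2 → ℂ)),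
      (∀ t ∈ Set.Icc (0 : ℝ) 1, HasDerivWithinAt η (vf (η t)) (Set.Icc 0 1) t) →
      ∀ t ∈ Set.Ico (0 : ℝ) 1, HasDerivWithinAt η (vf (η t)) (Set.Ici t) t := by
    intro η hη t ht
    have h1 := hη t ⟨ht.1, ht.2.le⟩
    exact h1.mono_of_mem_nhdsWithin (Icc_mem_nhdsGE_of_mem ht)
  have := ODE_solution_unique_of_mem_Icc_right (v := fun _ => vf)
    (s := fun _ => Metric.closedBall 0 R) (a := 0) (b := 1) (f := γ) (g := δ)
    (K := Real.toNNReal (3 * R ^ 2))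
    (fun t _ => vf_lipschitz R) hγc (hder γ hγ)
    (fun t ht => by
      rw [mem_closedBall_zero_iff]
      exact (hR1 _ ⟨t, ⟨ht.1, ht.2.le⟩, rfl⟩).trans ((le_max_left _ _).trans (le_max_left _ _)))
    hδc (hder δ hδ)
    (fun t ht => by
      rw [mem_closedBall_zero_iff]
      exact (hR2 _ ⟨t, ⟨ht.1, ht.2.le⟩, rfl⟩).trans ((le_max_right _ _).trans (le_max_left _ _)))
    h0
  exact this (Set.right_mem_Icc.mpr zero_le_one)

/-- The Henon map is not locally conjugate to the time-1 map of `vf`. -/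
theorem not_conj (U V : Set (Fin 2 → ℂ)) (h k : (Fin 2 → ℂ) → (Fin 2 → ℂ))
    (hU : IsOpen U) (hV : IsOpen V) (h0U : (0 : Fin 2 → ℂ) ∈ U) (hh0 : h 0 = 0)
    (hkc : ContinuousOn k V) (hhUV : Set.MapsTo h U V)
    (hleft : Set.LeftInvOn k h U) (hright : Set.RightInvOn k h V)
    (hconj : ∀ᶠ z in 𝓝 (0 : Fin 2 → ℂ),
          ∃ γ : ℝ → (Fin 2 → ℂ), γ 0 = h z ∧ γ 1 = h (hen z) ∧
            ∀ t ∈ Set.Icc (0 : ℝ) 1,
              HasDerivWithinAt γ (vf (γ t)) (Set.Icc 0 1) t) : False := by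
  obtain ⟨x, y, T, hT, hx, hy, hxT, hyT, hx0, ⟨t1, hx1⟩, henergy⟩ := exists_periodic
  have h0V : (0 : Fin 2 → ℂ) ∈ V := hh0 ▸ hhUV h0U
  have hk0 : k 0 = 0 := by
    have := hleft h0U
    rwa [hh0] at this
  have hkcont : ContinuousAt k 0 := hkc.continuousAt (hV.mem_nhds h0V)
  have hhen : ContinuousAt hen 0 := hen_analyticAt.continuousAt
  have hW : ∀ᶠ z in 𝓝 (0 : Fin 2 → ℂ), hen z ∈ U ∧
      ∃ γ : ℝ → (Fin 2 → ℂ), γ 0 = h z ∧ γ 1 = h (hen z) ∧
            ∀ t ∈ Set.Icc (0 : ℝ) 1,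
              HasDerivWithinAt γ (vf (γ t)) (Set.Icc 0 1) t := by
    have h1 : ∀ᶠ z in 𝓝 (0 : Fin 2 → ℂ), hen z ∈ U := by
      apply hhen.eventually
      rw [hen_map_zero]
      exact hU.mem_nhds h0U
    exact h1.and hconj
  have hW2 : ∀ᶠ w in 𝓝 (0 : Fin 2 → ℂ), w ∈ V ∧ hen (k w) ∈ U ∧
      ∃ γ : ℝ → (Fin 2 → ℂ), γ 0 = h (k w) ∧ γ 1 = h (hen (k w)) ∧
            ∀ t ∈ Set.Icc (0 : ℝ) 1,
              HasDerivWithinAt γ (vf (γ t)) (Set.Icc 0 1) t := by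
    have h1 : ∀ᶠ w in 𝓝 (0 : Fin 2 → ℂ), w ∈ V := hV.mem_nhds h0V
    refine h1.and ?_
    have h2 : Filter.Tendsto k (𝓝 0) (𝓝 0) := by
      have := hkcont.tendsto
      rwa [hk0] at this
    exact h2.eventually hW
  obtain ⟨ε, hε, hball⟩ := Metric.eventually_nhds_iff_ball.mp hW2
  -- choose the period
  obtain ⟨N, hN⟩ := exists_nat_gt (T / ε ^ 2)
  have hNpos : (0 : ℝ) < N := lt_trans (by positivity) hN
  have hNpos' : 0 < N := by exact_mod_cast hNpos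
  set s : ℝ := Real.sqrt (T / N) with hs
  have hspos : 0 < s := Real.sqrt_pos.mpr (by positivity)
  have hs2 : s ^ 2 = T / N := Real.sq_sqrt (by positivity)
  have hsε : s < ε := by
    rw [hs, Real.sqrt_lt' hε]
    rw [div_lt_iff₀ (by positivity)] at hN
    rw [div_lt_iff₀ hNpos]
    linarith
  let Γ : ℝ → (Fin 2 → ℂ) := fun t => ![((s * x (s ^ 2 * t) : ℝ) : ℂ), ((s * y (s ^ 2 * t) : ℝ) : ℂ)]
  have habs : ∀ a b : ℝ, a ^ 4 + b ^ 4 = 1 → |a| ≤ 1 := by
    intro a b hab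
    by_contra hc
    push Not at hc
    have h1 : 1 < |a| ^ 4 := one_lt_pow₀ hc (by norm_num)
    have h2 : |a| ^ 4 = a ^ 4 := by
      rw [show (4 : ℕ) = 2 * 2 by norm_num, pow_mul, pow_mul, sq_abs]
    have h3 : 0 ≤ b ^ 4 := by positivity
    linarith
  have hΓball : ∀ t, Γ t ∈ Metric.ball (0 : Fin 2 → ℂ) ε := by
    intro t
    rw [mem_ball_zero_iff]
    refine lt_of_le_of_lt ?_ hsε
    rw [pi_norm_le_iff_of_nonneg hspos.le]
    intro i
    fin_cases i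
    · simp only [Γ, Fin.zero_eta, Matrix.cons_val_zero, Complex.norm_real, Real.norm_eq_abs, abs_mul,
        abs_of_pos hspos]
      have := habs _ _ (henergy (s ^ 2 * t))
      nlinarith
    · simp only [Γ, Fin.mk_one, Matrix.cons_val_one, Matrix.cons_val_fin_one, Complex.norm_real,
        Real.norm_eq_abs, abs_mul, abs_of_pos hspos]
      have := habs (y (s ^ 2 * t)) (x (s ^ 2 * t)) (by linarith [henergy (s ^ 2 * t)])
      nlinarith
  have hΓder : ∀ t, HasDerivAt Γ (vf (Γ t)) t := by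
    intro t
    have hlin : HasDerivAt (fun t : ℝ => s ^ 2 * t) (s ^ 2) t := by
      simpa using (hasDerivAt_id t).const_mul (s ^ 2)
    rw [hasDerivAt_pi]
    intro i
    fin_cases i
    · have h1 := (((hx (s ^ 2 * t)).comp t hlin).const_mul s).ofReal_comp
      simp only [Γ, vf, Fin.zero_eta, Matrix.cons_val_zero, Matrix.cons_val_one,
        Matrix.cons_val_fin_one]
      refine h1.congr_deriv ?_
      push_cast
      ring
    · have h1 := (((hy (s ^ 2 * t)).comp t hlin).const_mul s).ofReal_comp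
      simp only [Γ, vf, Fin.mk_one, Matrix.cons_val_zero, Matrix.cons_val_one,
        Matrix.cons_val_fin_one]
      refine h1.congr_deriv ?_
      push_cast
      ring
  have hΓper : ∀ t, Γ (t + N) = Γ t := by
    intro t
    have h1 : s ^ 2 * (t + N) = s ^ 2 * t + T := by
      rw [hs2]
      field_simp
    simp only [Γ, h1, hxT, hyT]
  have hkey : ∀ τ : ℝ, ∀ m : ℕ, hen^[m] (k (Γ τ)) = k (Γ (τ + m)) := by
    intro τ m
    induction m with
    | zero => simp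
    | succ m ih =>
      rw [Function.iterate_succ_apply', ih]
      obtain ⟨hwV, hhU, γ, hγ0, hγ1, hγd⟩ := hball _ (hΓball (τ + m))
      have hδd : ∀ t ∈ Set.Icc (0 : ℝ) 1,
          HasDerivWithinAt (fun t => Γ (τ + m + t)) (vf (Γ (τ + m + t))) (Set.Icc 0 1) t := by
        intro t _
        have h2 : HasDerivAt (fun t : ℝ => τ + m + t) 1 t := by
          simpa using (hasDerivAt_id t).const_add (τ + (m : ℝ))
        have h3 := (hΓder (τ + m + t)).scomp t h2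
        rw [one_smul] at h3
        exact h3.hasDerivWithinAt
      have huniq := vf_unique γ (fun t => Γ (τ + m + t)) hγd hδd (by
        rw [hγ0, hright hwV]
        simp)
      rw [hγ1] at huniq
      have h4 := hleft hhU
      rw [huniq] at h4
      rw [← h4]
      congr 2
      push_cast
      ring
  have hfix : ∀ τ : ℝ, k (Γ τ) ∈ {z : Fin 2 → ℂ | hen^[N] z = z} := by
    intro τ
    change hen^[N] (k (Γ τ)) = k (Γ τ)
    rw [hkey, hΓper]
  have hfin := hen_fix_finite N hNpos'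
  have hinjk : Set.InjOn k (Set.range Γ) := by
    rintro _ ⟨t, rfl⟩ _ ⟨t', rfl⟩ heq
    have e1 := hright (hball _ (hΓball t)).1
    have e2 := hright (hball _ (hΓball t')).1
    rw [← e1, ← e2, heq]
  have hrange : (Set.range Γ).Finite := by
    have h1 : (k '' Set.range Γ).Finite := by
      apply hfin.subset
      rintro _ ⟨_, ⟨t, rfl⟩, rfl⟩
      exact hfix t
    exact Set.Finite.of_finite_image h1 hinjk
  have hrange2 : (Set.range (fun t => s * x (s ^ 2 * t))).Finite := by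
    have h1 : (Set.range (fun t => s * x (s ^ 2 * t)))
        = (fun w : Fin 2 → ℂ => (w 0).re) '' Set.range Γ := by
      rw [← Set.range_comp]
      congr 1
    rw [h1]
    exact hrange.image _
  have hcontx : Continuous (fun t => s * x (s ^ 2 * t)) := by
    have : Continuous x := continuous_iff_continuousAt.mpr fun t => (hx t).continuousAt
    fun_prop
  have hsub : Set.Icc (-s) s ⊆ Set.range (fun t => s * x (s ^ 2 * t)) := by
    intro u hu
    have h2 : u ∈ Set.uIcc ((fun t => s * x (s ^ 2 * t)) (t1 / s ^ 2)) ((fun t => s * x (s ^ 2 * t)) 0) := by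
      have e1 : s ^ 2 * (t1 / s ^ 2) = t1 := by field_simp
      simp only [e1, hx1, mul_zero, hx0, mul_one, mul_neg]
      rw [Set.uIcc_of_le (by linarith)]
      exact hu
    obtain ⟨t, -, ht⟩ := intermediate_value_uIcc hcontx.continuousOn h2
    exact ⟨t, ht⟩
  exact (Set.Icc_infinite (by linarith : -s < s)) (hrange2.subset hsub)

end Pool.Agent.H46
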