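import Mathlib
import Pool.Agent.H46.Blk.Final

set_option autoImplicit false

namespace Pool.Agent.H46.InvariantBlockProof

/-- The conjecture of Cassels and Swinnerton-Dyer holds for a product of linear forms as soon as some,
but not all, of the forms span a space which is invariant under an integer matrix `T` with
irreducible characteristic polynomial, unless this space is cut out by an integer matrix commuting
with `T` whose characteristic polynomial is reducible. -/
theorem result :
    ∀ d : ℕ, 3 ≤ d → ∀ g : Matrix (Fin d) (Fin d) ℝ, g.det ≠ 0 →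
      ∀ T : Matrix (Fin d) (Fin d) ℤ, Irreducible (T.map (Int.cast : ℤ → ℚ)).charpoly →
      ∀ I : Finset (Fin d), I.Nonempty → I ≠ Finset.univ →
      (∀ i ∈ I, Matrix.vecMul (g i) (T.map (Int.cast : ℤ → ℝ))
        ∈ Submodule.span ℝ (g '' (I : Set (Fin d)))) →
      (∀ B : Matrix (Fin d) (Fin d) ℤ, B * T = T * B →
        ¬ Irreducible (B.map (Int.cast : ℤ → ℚ)).charpoly →
        ¬ ∃ q : Polynomial ℝ, ∀ v : Fin d → ℝ,
          v ∈ Submodule.span ℝ (g '' (I : Set (Fin d))) ↔
            Matrix.vecMul v (Polynomial.aeval (B.map (Int.cast : ℤ → ℝ)) q) = 0) →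
      (¬ ∃ c : ℝ, c ≠ 0 ∧ ∀ m : Fin d →₀ ℕ, ∃ z : ℤ,
          MvPolynomial.coeff m
            (c • (∏ i : Fin d, ∑ j : Fin d,
              MvPolynomial.C (g i j) * MvPolynomial.X j : MvPolynomial (Fin d) ℝ)) = (z : ℝ)) →
      ∀ ε : ℝ, 0 < ε → ∃ x : Fin d → ℤ, x ≠ 0 ∧
        |∏ i : Fin d, ∑ j : Fin d, g i j * (x j : ℝ)| < ε := by
  intro d hd g hg T hT I hI0 hI1 hinv hprim hnot ε hε
  by_contra hcon
  push Not at hcon
  obtain ⟨lam, hlam, heig⟩ := Pool.Agent.H46.Blk.invariant_block d hd g hg T hT I hI0 hI1 hinv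
    (by
      intro B q hBT hq
      by_contra hirr
      exact hprim B hBT hirr ⟨q, hq⟩) ε hε hcon
  exact hnot (Pool.Agent.H46.integral_of_eigen d g hg T lam hlam heig)

end Pool.Agent.H46.InvariantBlockProof
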